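import Mathlib

set_option autoImplicit false

/-!
# Project DN (row MP_173de9_an): star discrepancy of digital nets, definitions and statements

`F` is a finite field with `q = Fintype.card F` elements, `V = Fin m → F`, there are `D + 2`
coordinates `j : Fin (D+2)` (`D ≥ 1`), and `φ j i : V →ₗ[F] F` gives the `i`-th digit of the
`j`-th coordinate.
-/

namespace Pool.Agent.Q71.DN

open Finset

/-- The digit functionals: `φ j i v` is the `i`-th digit (an element of `F`) of the `j`-th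
coordinate of the point with index `v`. -/
abbrev Rows (F : Type) [Field F] (m D : ℕ) : Type :=
  Fin (D + 2) → ℕ → ((Fin m → F) →ₗ[F] F)

/-- The digital net property with quality parameter `t`. -/
def IsNet {F : Type} [Field F] {m D : ℕ} (t : ℕ) (φ : Rows F m D) : Prop :=
  ∀ a : Fin (D + 2) → ℕ, (∑ j, a j) + t ≤ m →
    LinearIndependent F (fun x : (Σ j, Fin (a j)) => φ x.1 (x.2 : ℕ))

open Classical in
/-- The number of `v` whose first `a j` digits vanish in every coordinate `j`. -/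
noncomputable def kk {F : Type} [Field F] [Fintype F] {m D : ℕ} (φ : Rows F m D)
    (a : Fin (D + 2) → ℕ) : ℕ :=
  (univ.filter fun v : Fin m → F => ∀ j, ∀ i < a j, φ j i v = 0).card

/-- `kk` minus its expected value. -/
noncomputable def GG {F : Type} [Field F] [Fintype F] {m D : ℕ} (φ : Rows F m D)
    (a : Fin (D + 2) → ℕ) : ℝ :=
  (kk φ a : ℝ) - (Fintype.card F : ℝ) ^ m / (Fintype.card F : ℝ) ^ (∑ j, a j)

/-- The level vector `(a1, a')`. -/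
def lev {D : ℕ} (a1 : ℕ) (a' : Fin (D + 1) → ℕ) : Fin (D + 2) → ℕ :=
  Fin.cons (α := fun _ => ℕ) a1 a'

/-- The set of index vectors `{0, …, P}^(D+1)`. -/
def idx (D P : ℕ) : Finset (Fin (D + 1) → ℕ) := Fintype.piFinset fun _ => range (P + 1)

/-- The alternating sum of `GG` over the levels `(a1, l' + k n')`, `n' ∈ {0, …, P}^(D+1)`. -/
noncomputable def Phi {F : Type} [Field F] [Fintype F] {m D : ℕ} (φ : Rows F m D) (k P : ℕ)
    (l' : Fin (D + 1) → ℕ) (a1 : ℕ) : ℝ :=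
  ∑ n ∈ idx D P, (-1 : ℝ) ^ (∑ j, n j) * GG φ (lev a1 fun j => l' j + k * n j)

/-- `i` lies in an even tile of the window `[l, l + w)` cut into tiles of length `k`. -/
def On (k l w i : ℕ) : Prop := l ≤ i ∧ i < l + w ∧ Even ((i - l) / k)

/-- The first nonzero digit of `v` in coordinate `j` exists and its position satisfies `S`. -/
def FstIn {F : Type} [Field F] {m D : ℕ} (φ : Rows F m D) (j : Fin (D + 2)) (S : ℕ → Prop)
    (v : Fin m → F) : Prop :=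
  ∃ i, S i ∧ φ j i v ≠ 0 ∧ ∀ i' < i, φ j i' v = 0

open Classical in
/-- The number of `v` whose first nonzero digit is in a tile `[l1 + k n, l1 + k (n+1))`, `n ∈ T`,
in coordinate `0` and in an even tile of the window of the other coordinates. -/
noncomputable def cT {F : Type} [Field F] [Fintype F] {m D : ℕ} (φ : Rows F m D) (k P l1 : ℕ)
    (l' : Fin (D + 1) → ℕ) (T : Finset ℕ) : ℕ :=
  (univ.filter fun v : Fin m → F =>
    FstIn φ 0 (fun i => ∃ n ∈ T, l1 + k * n ≤ i ∧ i < l1 + k * (n + 1)) v ∧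
      ∀ j : Fin (D + 1), FstIn φ j.succ (On k (l' j) (k * (P + 1))) v).card

/-- The volume (times `q^m`) that belongs to `cT`. -/
noncomputable def vT (F : Type) [Field F] [Fintype F] (m : ℕ) {D : ℕ} (k P l1 : ℕ)
    (l' : Fin (D + 1) → ℕ) (T : Finset ℕ) : ℝ :=
  (Fintype.card F : ℝ) ^ m *
    (∑ n ∈ T, (1 / (Fintype.card F : ℝ) ^ (l1 + k * n) -
      1 / (Fintype.card F : ℝ) ^ (l1 + k * (n + 1)))) *
    ∏ j : Fin (D + 1), ∑ n ∈ range (P + 1), (-1 : ℝ) ^ n / (Fintype.card F : ℝ) ^ (l' j + k * n)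

/-- The digit bijections: `ψ j i : F ≃ {0, …, q-1}`. -/
abbrev Digs (F : Type) [Fintype F] (D : ℕ) : Type :=
  Fin (D + 2) → ℕ → (F ≃ Fin (Fintype.card F))

/-- The number given by the first `u` digits of coordinate `j` of the point `v`. -/
noncomputable def tr {F : Type} [Field F] [Fintype F] {m D : ℕ} (φ : Rows F m D) (ψ : Digs F D)
    (j : Fin (D + 2)) (u : ℕ) (v : Fin m → F) : ℝ :=
  ∑ i ∈ range u, ((ψ j i (φ j i v) : ℕ) : ℝ) / (Fintype.card F : ℝ) ^ (i + 1)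

/-- The points `x v` have the first `m` digits prescribed by `φ` and `ψ` (and are arbitrary
otherwise). -/
def IsDig {F : Type} [Field F] [Fintype F] {m D : ℕ} (φ : Rows F m D) (ψ : Digs F D)
    (x : (Fin m → F) → Fin (D + 2) → ℝ) : Prop :=
  ∀ v j, tr φ ψ j m v ≤ x v j ∧ x v j < tr φ ψ j m v + 1 / (Fintype.card F : ℝ) ^ m

open Classical in
/-- The number of points in the half open box `∏ [Y j, X j)`. -/
noncomputable def cnt {F : Type} [Fintype F] {m d : ℕ} (x : (Fin m → F) → Fin d → ℝ)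
    (Y X : Fin d → ℝ) : ℕ :=
  (univ.filter fun v : Fin m → F => ∀ j, Y j ≤ x v j ∧ x v j < X j).card

/-- All half open boxes have unnormalised discrepancy at most `R`. -/
def Bd {F : Type} [Fintype F] {m d : ℕ} (x : (Fin m → F) → Fin d → ℝ) (R : ℝ) : Prop :=
  ∀ Y X : Fin d → ℝ, (∀ j, 0 ≤ Y j ∧ Y j ≤ X j ∧ X j ≤ 1) →
    |(cnt x Y X : ℝ) - (Fintype.card F : ℝ) ^ m * ∏ j, (X j - Y j)| ≤ R

/-! ## Statements of the jobs -/

/-- DN-1. Size of the subspaces `K_a`. -/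
def StmKK : Prop :=
  ∀ (F : Type) [Field F] [Fintype F] (m D : ℕ) (φ : Rows F m D) (a : Fin (D + 2) → ℕ),
    0 ≤ GG φ a ∧
    (∀ t, IsNet t φ → (∑ j, a j) + t ≤ m → GG φ a = 0) ∧
    ((∑ j, a j) ≤ m → ¬ LinearIndependent F (fun x : (Σ j, Fin (a j)) => φ x.1 (x.2 : ℕ)) →
      Fintype.card F ^ (m - (∑ j, a j) + 1) ≤ kk φ a)

/-- DN-2. The alternating sum lemma (pure combinatorics). `ℓ` is the critical layer. -/
def StmAlt : Prop :=
  ∀ (D P z ℓ : ℕ), 1 ≤ D → z ≤ P → ℓ + z = (D + 1) * P →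
    (∀ ν : Fin (D + 1) → ℕ, (∀ j, ν j ≤ P) →
      0 ≤ ∑ n ∈ (idx D P).filter (fun n => ℓ ≤ (∑ j, n j) ∧ ∀ j, n j ≤ ν j),
        (-1 : ℝ) ^ (ℓ + ∑ j, n j)) ∧
    (∀ (q : ℝ) (k : ℕ), 2 ≤ q →
      (1 / 2 : ℝ) * ((z / (2 * D) + 1 : ℕ) : ℝ) ^ D ≤
        ∑ n ∈ (idx D P).filter (fun n => ℓ ≤ ∑ j, n j),
          (-1 : ℝ) ^ (ℓ + ∑ j, n j) * (1 - 1 / q ^ (2 + k * ((∑ j, n j) - ℓ))))

/-- DN-3. Sign and size of the alternating sums `Phi`. -/
def StmPhi : Prop :=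
  ∀ (F : Type) [Field F] [Fintype F] (m D t : ℕ) (φ : Rows F m D), 1 ≤ D → IsNet t φ →
    ∀ (P z a1 : ℕ) (l' : Fin (D + 1) → ℕ), z ≤ P →
      a1 + (∑ j, l' j) + (t + 2) * ((D + 1) * P - z) = m + 2 →
      (1 / 2 : ℝ) * ((z / (2 * D) + 1 : ℕ) : ℝ) ^ D ≤
        (-1 : ℝ) ^ ((D + 1) * P - z) * Phi φ (t + 2) P l' a1

/-- DN-4. The count minus the volume is a sum of differences of `Phi`. -/
def StmExp : Prop :=
  ∀ (F : Type) [Field F] [Fintype F] (m D k L l1 : ℕ) (φ : Rows F m D)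
    (l' : Fin (D + 1) → ℕ) (T : Finset ℕ), 1 ≤ k → 1 ≤ L →
    (cT φ k (2 * L - 1) l1 l' T : ℝ) - vT F m k (2 * L - 1) l1 l' T =
      ∑ n ∈ T, (Phi φ k (2 * L - 1) l' (l1 + k * n) - Phi φ k (2 * L - 1) l' (l1 + k * (n + 1)))

open Classical in
/-- DN-5. Which points lie in the box given by the digits of `p` in the windows `[l j, u j)`. -/
def StmGeo : Prop :=
  ∀ (F : Type) [Field F] [Fintype F] (m D : ℕ) (φ : Rows F m D) (ψ : Digs F D)
    (x : (Fin m → F) → Fin (D + 2) → ℝ), IsDig φ ψ x →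
    ∀ (p : Fin m → F) (l u : Fin (D + 2) → ℕ), (∀ j, l j ≤ u j ∧ u j ≤ m) →
      (∀ j, 0 ≤ tr φ ψ j (l j) p ∧ tr φ ψ j (l j) p ≤ tr φ ψ j (u j) p ∧
        tr φ ψ j (u j) p ≤ 1) ∧
      cnt x (fun j => tr φ ψ j (l j) p) (fun j => tr φ ψ j (u j) p) =
        (univ.filter fun κ : Fin m → F => ∀ j, ∃ i, l j ≤ i ∧ i < u j ∧
          (∀ i' < i, φ j i' κ = 0) ∧ ψ j i (φ j i p + φ j i κ) < ψ j i (φ j i p)).card

/-- The two points `p0`, `p1` differ by switching the tiles `T` of the window `[l1, l1 + k (P+1))`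
of coordinate `0` from digit `0` to the top digit, and have the even-tile pattern in the windows
`[l' j, l' j + k (P+1))` of the other coordinates. -/
structure Pair {F : Type} [Field F] [Fintype F] {m D : ℕ} (φ : Rows F m D) (ψ : Digs F D)
    (k P l1 : ℕ) (l' : Fin (D + 1) → ℕ) (T : Finset ℕ) (p0 p1 : Fin m → F) : Prop where
  even : ∀ n ∈ T, Even n ∧ n < P + 1
  win0 : l1 + k * (P + 1) ≤ m
  win : ∀ j, l' j + k * (P + 1) ≤ m
  pat0 : ∀ (j : Fin (D + 1)) (i : ℕ), l' j ≤ i → i < l' j + k * (P + 1) →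
    (ψ j.succ i (φ j.succ i p0) : ℕ) = if Even ((i - l' j) / k) then Fintype.card F - 1 else 0
  pat1 : ∀ (j : Fin (D + 1)) (i : ℕ), l' j ≤ i → i < l' j + k * (P + 1) →
    (ψ j.succ i (φ j.succ i p1) : ℕ) = if Even ((i - l' j) / k) then Fintype.card F - 1 else 0
  onT : ∀ i, l1 ≤ i → i < l1 + k * (P + 1) → (i - l1) / k ∈ T →
    (ψ 0 i (φ 0 i p0) : ℕ) = 0 ∧ (ψ 0 i (φ 0 i p1) : ℕ) = Fintype.card F - 1
  offT : ∀ i, l1 ≤ i → i < l1 + k * (P + 1) → (i - l1) / k ∉ T → φ 0 i p1 = φ 0 i p0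

/-- DN-6. A pair makes `cT - vT` a difference of two box discrepancies. -/
def StmReal : Prop :=
  ∀ (F : Type) [Field F] [Fintype F] (m D : ℕ) (φ : Rows F m D) (ψ : Digs F D)
    (x : (Fin m → F) → Fin (D + 2) → ℝ), IsDig φ ψ x →
    ∀ (R : ℝ), Bd x R → ∀ (k L l1 : ℕ) (l' : Fin (D + 1) → ℕ) (T : Finset ℕ)
      (p0 p1 : Fin m → F), 1 ≤ k → 1 ≤ L → Pair φ ψ k (2 * L - 1) l1 l' T p0 p1 →
      |(cT φ k (2 * L - 1) l1 l' T : ℝ) - vT F m k (2 * L - 1) l1 l' T| ≤ 2 * R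

/-- The lower ends of the windows of the coordinates `≥ 1` in cell `s`. -/
def lcell {D : ℕ} (S w b s : ℕ) (j : Fin (D + 1)) : ℕ :=
  if (j : ℕ) = 0 then b + s * w else if (j : ℕ) = 1 then (S - 1 - s) * w else 0

/-- DN-8. Some cell has few dependent rows in the window `[l1, l1 + w)` of coordinate `0`. -/
def StmCell : Prop :=
  ∀ (F : Type) [Field F] [Fintype F] (m D t : ℕ) (φ : Rows F m D), 1 ≤ D → IsNet t φ →
    ∀ (S w b l1 : ℕ), 1 ≤ S → b + 2 * (S * w) + (D - 1) * w + t ≤ m → l1 + D * w + t ≤ m →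
      ∃ s < S, ∃ I ⊆ Ico l1 (l1 + w), S * (w - I.card) ≤ w ∧
        ∀ c : Fin (D + 2) → ℕ → F, ∃ v : Fin m → F, (∀ i ∈ I, φ 0 i v = c 0 i) ∧
          ∀ (j : Fin (D + 1)) (i : ℕ), lcell S w b s j ≤ i → i < lcell S w b s j + w →
            φ j.succ i v = c j.succ i

/-- DN-9. Zero-sum subsets. -/
def StmZero : Prop :=
  ∀ (F : Type) [Field F] [Fintype F] (A J : Finset ℕ) (g : ℕ → ℕ → F),
    ∃ T ⊆ A, (∀ i ∈ J, ∑ n ∈ T, g n i = 0) ∧
      A.card ≤ T.card + J.card * (Fintype.card F - 1)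

/-- DN-10. Existence of a pair with many tiles. -/
def StmPair : Prop :=
  ∀ (F : Type) [Field F] [Fintype F] (m D t : ℕ) (φ : Rows F m D) (ψ : Digs F D), 1 ≤ D →
    IsNet t φ → ∀ L : ℕ, 1 ≤ L →
    (8 * ((t + 2) * Fintype.card F) + 2 * D + 1) * (2 * ((t + 2) * L)) ≤ m →
    ∃ (l1 : ℕ) (l' : Fin (D + 1) → ℕ) (T : Finset ℕ) (p0 p1 : Fin m → F),
      l1 + (∑ j, l' j) + (t + 2) * ((D + 1) * (2 * L - 1)) = m + 2 ∧
      L ≤ 2 * T.card ∧ Pair φ ψ (t + 2) (2 * L - 1) l1 l' T p0 p1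

/-- DN-11. From the star discrepancy (an `L_∞` norm over closed anchored boxes) to all half open
boxes. -/
def StmStar : Prop :=
  ∀ (N d : ℕ) (ξ : Fin N → Fin d → ℝ), 1 ≤ N → (∀ μ j, 0 ≤ ξ μ j ∧ ξ μ j < 1) →
    ∀ R : ℝ, 0 ≤ R →
    MeasureTheory.eLpNorm (fun x : Fin d → ℝ => ∏ j, x j - (1 / (N : ℝ)) *
      ∑ μ : Fin N, (Set.Icc (0 : Fin d → ℝ) x).indicator (fun _ => (1 : ℝ)) (ξ μ)) ⊤
      (MeasureTheory.volume.restrict (Set.Icc (0 : Fin d → ℝ) 1)) ≤ ENNReal.ofReal (R / N) →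
    ∀ Y X : Fin d → ℝ, (∀ j, 0 ≤ Y j ∧ Y j ≤ X j ∧ X j ≤ 1) →
      |(Nat.card {μ : Fin N // ∀ j, Y j ≤ ξ μ j ∧ ξ μ j < X j} : ℝ) -
        (N : ℝ) * ∏ j, (X j - Y j)| ≤ 2 ^ d * R

/-- DN-12. A discrepancy bound forces the net property, and is at least `1/2`. -/
def StmT : Prop :=
  ∀ (F : Type) [Field F] [Fintype F] (m D : ℕ) (φ : Rows F m D) (ψ : Digs F D)
    (x : (Fin m → F) → Fin (D + 2) → ℝ), IsDig φ ψ x → ∀ (R : ℝ), Bd x R →
    1 / 2 ≤ R ∧ ∀ t : ℕ, R < (Fintype.card F : ℝ) ^ t → IsNet t φ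

/-- DN-13. The core estimate. -/
def StmCore : Prop :=
  ∀ (F : Type) [Field F] [Fintype F] (m D t : ℕ) (φ : Rows F m D) (ψ : Digs F D)
    (x : (Fin m → F) → Fin (D + 2) → ℝ), 1 ≤ D → IsNet t φ → IsDig φ ψ x →
    ∀ (R : ℝ), Bd x R → ∀ L : ℕ, 1 ≤ L →
    (8 * ((t + 2) * Fintype.card F) + 2 * D + 1) * (2 * ((t + 2) * L)) ≤ m →
    (L : ℝ) ^ (D + 1) ≤ 8 * (4 * D) ^ D * R

end Pool.Agent.Q71.DN
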