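import Mathlib
import Pool.Agent.Q71.DN.Defs

set_option autoImplicit false

/-!
# Project DN, job DN-11: from the star discrepancy to all half open boxes
-/

namespace Pool.Agent.Q71.DN

open Finset MeasureTheory Set Filter Topology

namespace StarAux

variable {N d : ℕ}

/-- The anchored discrepancy function with closed boxes. -/
noncomputable def Dc (ξ : Fin N → Fin d → ℝ) (x : Fin d → ℝ) : ℝ :=
  ∏ j, x j - (1 / (N : ℝ)) *
      ∑ μ : Fin N, (Set.Icc (0 : Fin d → ℝ) x).indicator (fun _ => (1 : ℝ)) (ξ μ)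

open Classical in
/-- The number of points strictly below `x`. -/
noncomputable def co (ξ : Fin N → Fin d → ℝ) (x : Fin d → ℝ) : ℕ :=
  (univ.filter fun μ : Fin N => ∀ j, ξ μ j < x j).card

lemma exists_good (ξ : Fin N → Fin d → ℝ) (B : ℝ) (hB : 0 ≤ B)
    (h : eLpNorm (Dc ξ) ⊤ (volume.restrict (Set.Icc (0 : Fin d → ℝ) 1)) ≤ ENNReal.ofReal B)
    (U : Set (Fin d → ℝ)) (hU : IsOpen U) (hne : U.Nonempty)
    (hsub : U ⊆ Set.Icc (0 : Fin d → ℝ) 1) : ∃ y ∈ U, |Dc ξ y| ≤ B := by
  by_contra hcon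
  push Not at hcon
  have h1 : ∀ᵐ y ∂(volume.restrict (Set.Icc (0 : Fin d → ℝ) 1)), |Dc ξ y| ≤ B := by
    rw [eLpNorm_exponent_top] at h
    filter_upwards [ae_le_eLpNormEssSup (f := Dc ξ)
      (μ := volume.restrict (Set.Icc (0 : Fin d → ℝ) 1))] with y hy
    have h2 := hy.trans h
    rw [← ofReal_norm, ENNReal.ofReal_le_ofReal_iff hB, Real.norm_eq_abs] at h2
    exact h2
  rw [ae_restrict_iff' measurableSet_Icc] at h1
  have h3 : (volume : Measure (Fin d → ℝ)) U = 0 := by
    refine measure_mono_null ?_ (ae_iff.mp h1)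
    intro y hy
    simp only [Set.mem_ofPred_eq, Classical.not_imp, not_le]
    exact ⟨hsub hy, hcon y hy⟩
  exact (hU.measure_pos volume hne).ne' h3

lemma co_bound (ξ : Fin N → Fin d → ℝ) (hN : 1 ≤ N) (hξ : ∀ μ j, 0 ≤ ξ μ j ∧ ξ μ j < 1)
    (R : ℝ) (hR : 0 ≤ R)
    (h : eLpNorm (Dc ξ) ⊤ (volume.restrict (Set.Icc (0 : Fin d → ℝ) 1)) ≤
      ENNReal.ofReal (R / N))
    (x : Fin d → ℝ) (hx : ∀ j, 0 ≤ x j ∧ x j ≤ 1) :
    |(N : ℝ) * ∏ j, x j - (co ξ x : ℝ)| ≤ R := by
  classical
  have hN0 : (0 : ℝ) < N := by exact_mod_cast hN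
  by_cases hz : ∃ j, x j = 0
  · obtain ⟨j, hj⟩ := hz
    have h1 : ∏ j, x j = 0 := Finset.prod_eq_zero (Finset.mem_univ j) hj
    have h2 : co ξ x = 0 := by
      rw [co, Finset.card_eq_zero, Finset.filter_eq_empty_iff]
      intro μ _ hμ
      have := hμ j
      rw [hj] at this
      exact absurd this (not_lt.mpr (hξ μ j).1)
    rw [h1, h2]
    simpa using hR
  · push Not at hz
    have hpos : ∀ j, 0 < x j := fun j => lt_of_le_of_ne (hx j).1 (Ne.symm (hz j))
    refine le_of_forall_pos_le_add fun ε hε => ?_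
    -- the neighbourhood
    have hcont : ContinuousAt (fun y : Fin d → ℝ => (N : ℝ) * ∏ j, y j) x := by
      fun_prop
    have e1 : ∀ᶠ y in 𝓝 x, |(N : ℝ) * ∏ j, y j - (N : ℝ) * ∏ j, x j| < ε := by
      have := Metric.tendsto_nhds.mp hcont ε hε
      simpa [Real.dist_eq] using this
    have e2 : ∀ᶠ y in 𝓝 x, ∀ j, 0 < y j := by
      rw [eventually_all]
      intro j
      exact (continuous_apply j).continuousAt.eventually (lt_mem_nhds (hpos j))
    have e3 : ∀ᶠ y in 𝓝 x, ∀ μ j, ξ μ j < x j → ξ μ j < y j := by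
      rw [eventually_all]
      intro μ
      rw [eventually_all]
      intro j
      by_cases hlt : ξ μ j < x j
      · filter_upwards [(continuous_apply j).continuousAt.eventually (lt_mem_nhds hlt)]
          with y hy _ using hy
      · exact Eventually.of_forall fun y hy => absurd hy hlt
    obtain ⟨U, hUsub, hUo, hxU⟩ := eventually_nhds_iff.mp ((e1.and e2).and e3)
    have hclos : x ∈ closure (Set.pi Set.univ fun j => Set.Iio (x j)) := by
      rw [closure_pi_set]
      intro j _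
      change x j ∈ closure (Set.Iio (x j))
      rw [closure_Iio]
      exact le_refl (x j)
    have hOo : IsOpen (Set.pi Set.univ fun j => Set.Iio (x j)) :=
      isOpen_set_pi Set.finite_univ fun j _ => isOpen_Iio
    have hne : (U ∩ Set.pi Set.univ fun j => Set.Iio (x j)).Nonempty :=
      mem_closure_iff.mp hclos U hUo hxU
    obtain ⟨y, ⟨hyU, hyx⟩, hyB⟩ := exists_good ξ (R / N) (by positivity) h
      (U ∩ Set.pi Set.univ fun j => Set.Iio (x j)) (hUo.inter hOo) hne (by
        rintro y ⟨hyU, hyx⟩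
        refine ⟨fun j => ?_, fun j => ?_⟩
        · exact ((hUsub y hyU).1.2 j).le
        · exact ((hyx j (Set.mem_univ j)).le).trans (hx j).2)
    obtain ⟨⟨hy1, hy2⟩, hy3⟩ := hUsub y hyU
    have hcount : ∑ μ : Fin N, (Set.Icc (0 : Fin d → ℝ) y).indicator (fun _ => (1 : ℝ)) (ξ μ)
        = (co ξ x : ℝ) := by
      rw [co, Finset.card_filter]
      push_cast
      refine Finset.sum_congr rfl fun μ _ => ?_
      by_cases hμ : ∀ j, ξ μ j < x j
      · rw [if_pos hμ, Set.indicator_of_mem]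
        exact ⟨fun j => (hξ μ j).1, fun j => (hy3 μ j (hμ j)).le⟩
      · rw [if_neg hμ, Set.indicator_of_notMem]
        intro hmem
        exact hμ fun j => lt_of_le_of_lt (hmem.2 j) (hyx j (Set.mem_univ j))
    have hkey : |(N : ℝ) * ∏ j, y j - (co ξ x : ℝ)| ≤ R := by
      have h4 : (N : ℝ) * ∏ j, y j - (co ξ x : ℝ) = N * Dc ξ y := by
        rw [Dc, hcount]
        field_simp
      rw [h4, abs_mul, abs_of_pos hN0]
      calc (N : ℝ) * |Dc ξ y| ≤ N * (R / N) := by gcongr
        _ = R := by field_simp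
    calc |(N : ℝ) * ∏ j, x j - (co ξ x : ℝ)|
        = |((N : ℝ) * ∏ j, y j - (co ξ x : ℝ)) -
            ((N : ℝ) * ∏ j, y j - (N : ℝ) * ∏ j, x j)| := by
          congr 1; ring
      _ ≤ |(N : ℝ) * ∏ j, y j - (co ξ x : ℝ)| +
            |(N : ℝ) * ∏ j, y j - (N : ℝ) * ∏ j, x j| := abs_sub _ _
      _ ≤ R + ε := add_le_add hkey hy1.le

end StarAux

open StarAux in
theorem t_Star : StmStar := by
  classical
  intro N d ξ hN hξ R hR h Y X hYX
  have hco := co_bound ξ hN hξ R hR h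
  -- the corners
  set z : Finset (Fin d) → Fin d → ℝ := fun S j => if j ∈ S then Y j else X j with hz
  have hz01 : ∀ S j, 0 ≤ z S j ∧ z S j ≤ 1 := by
    intro S j
    simp only [hz]
    split_ifs
    · exact ⟨(hYX j).1, (hYX j).2.1.trans (hYX j).2.2⟩
    · exact ⟨(hYX j).1.trans (hYX j).2.1, (hYX j).2.2⟩
  have hprod : ∀ f g : Fin d → ℝ, ∏ j, (f j - g j) =
      ∑ S ∈ (univ : Finset (Fin d)).powerset, (-1 : ℝ) ^ S.card *
        ∏ j, (if j ∈ S then g j else f j) := by
    intro f g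
    have h1 : ∏ j, (f j - g j) = ∏ j, ((-g j) + f j) := by
      refine Finset.prod_congr rfl fun j _ => by ring
    rw [h1, Finset.prod_add]
    refine Finset.sum_congr rfl fun S hS => ?_
    have h2 : ∏ j, (if j ∈ S then g j else f j) = (∏ j ∈ S, g j) * ∏ j ∈ univ \ S, f j := by
      rw [← Finset.prod_sdiff (Finset.subset_univ S), mul_comm]
      congr 1
      · exact Finset.prod_congr rfl fun j hj => if_pos hj
      · exact Finset.prod_congr rfl fun j hj => if_neg (Finset.mem_sdiff.mp hj).2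
    rw [h2, Finset.prod_neg]
    ring
  have hvol : ∏ j, (X j - Y j) = ∑ S ∈ (univ : Finset (Fin d)).powerset,
      (-1 : ℝ) ^ S.card * ∏ j, z S j := hprod X Y
  have hcard : (Nat.card {μ : Fin N // ∀ j, Y j ≤ ξ μ j ∧ ξ μ j < X j} : ℝ) =
      ∑ S ∈ (univ : Finset (Fin d)).powerset, (-1 : ℝ) ^ S.card * (co ξ (z S) : ℝ) := by
    have h1 : (Nat.card {μ : Fin N // ∀ j, Y j ≤ ξ μ j ∧ ξ μ j < X j} : ℝ) =
        ∑ μ : Fin N, (if ∀ j, Y j ≤ ξ μ j ∧ ξ μ j < X j then (1 : ℝ) else 0) := by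
      rw [Nat.card_eq_fintype_card, Fintype.card_subtype, Finset.card_filter]
      push_cast
      rfl
    have h2 : ∀ S, (co ξ (z S) : ℝ) =
        ∑ μ : Fin N, (if ∀ j, ξ μ j < z S j then (1 : ℝ) else 0) := by
      intro S
      rw [co, Finset.card_filter]
      push_cast
      rfl
    simp_rw [h1, h2, Finset.mul_sum]
    rw [Finset.sum_comm]
    refine Finset.sum_congr rfl fun μ _ => ?_
    have h3 : (if ∀ j, Y j ≤ ξ μ j ∧ ξ μ j < X j then (1 : ℝ) else 0) =
        ∏ j, ((if ξ μ j < X j then (1 : ℝ) else 0) - (if ξ μ j < Y j then (1 : ℝ) else 0)) := by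
      by_cases hall : ∀ j, Y j ≤ ξ μ j ∧ ξ μ j < X j
      · rw [if_pos hall, eq_comm]
        refine Finset.prod_eq_one fun j _ => ?_
        rw [if_pos (hall j).2, if_neg (not_lt.mpr (hall j).1), sub_zero]
      · rw [if_neg hall, eq_comm]
        push Not at hall
        obtain ⟨j, hj⟩ := hall
        refine Finset.prod_eq_zero (Finset.mem_univ j) ?_
        by_cases hYj : Y j ≤ ξ μ j
        · rw [if_neg (not_lt.mpr (hj hYj)), if_neg (not_lt.mpr hYj), sub_zero]
        · push Not at hYj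
          rw [if_pos hYj, if_pos (lt_of_lt_of_le hYj (hYX j).2.1), sub_self]
    rw [h3, hprod]
    refine Finset.sum_congr rfl fun S _ => ?_
    congr 1
    by_cases hall : ∀ j, ξ μ j < z S j
    · rw [if_pos hall]
      refine Finset.prod_eq_one fun j _ => ?_
      have := hall j
      simp only [hz] at this
      split_ifs at this ⊢ <;> simp_all
    · rw [if_neg hall]
      push Not at hall
      obtain ⟨j, hj⟩ := hall
      refine Finset.prod_eq_zero (Finset.mem_univ j) ?_
      simp only [hz] at hj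
      split_ifs at hj ⊢ <;> simp_all [not_lt.mpr]
  rw [hcard, hvol, Finset.mul_sum, ← Finset.sum_sub_distrib]
  refine (Finset.abs_sum_le_sum_abs _ _).trans ?_
  have hterm : ∀ S ∈ (univ : Finset (Fin d)).powerset,
      |(-1 : ℝ) ^ S.card * (co ξ (z S) : ℝ) - (N : ℝ) * ((-1 : ℝ) ^ S.card * ∏ j, z S j)| ≤ R := by
    intro S _
    have h1 : (-1 : ℝ) ^ S.card * (co ξ (z S) : ℝ) -
        (N : ℝ) * ((-1 : ℝ) ^ S.card * ∏ j, z S j) =
        (-1 : ℝ) ^ S.card * (-((N : ℝ) * ∏ j, z S j - (co ξ (z S) : ℝ))) := by ring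
    rw [h1, abs_mul, abs_pow, abs_neg, abs_one, one_pow, one_mul, abs_neg]
    exact hco (z S) (hz01 S)
  refine (Finset.sum_le_sum hterm).trans ?_
  rw [Finset.sum_const, Finset.card_powerset, Finset.card_univ, Fintype.card_fin, nsmul_eq_mul]
  push_cast
  exact le_refl _

end Pool.Agent.Q71.DN
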