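import Mathlib
import Pool.Agent.Q71.DN.Defs

set_option autoImplicit false

/-!
# Project DN, job DN-12: a discrepancy bound forces the net property
-/

namespace Pool.Agent.Q71.DN

open Finset

namespace TAux

variable {F : Type} [Field F] [Fintype F] {m D : ℕ}

lemma q_gt : (1 : ℝ) < Fintype.card F := by
  exact_mod_cast Fintype.one_lt_card

lemma tr_nonneg (φ : Rows F m D) (ψ : Digs F D) (j : Fin (D + 2)) (u : ℕ) (v : Fin m → F) :
    0 ≤ tr φ ψ j u v := by
  unfold tr
  positivity

lemma tr_add_le (φ : Rows F m D) (ψ : Digs F D) (j : Fin (D + 2)) (a u : ℕ) (v : Fin m → F) :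
    tr φ ψ j (a + u) v + 1 / (Fintype.card F : ℝ) ^ (a + u) ≤
      tr φ ψ j a v + 1 / (Fintype.card F : ℝ) ^ a := by
  have hq := q_gt (F := F)
  induction u with
  | zero => simp
  | succ u ih =>
    refine le_trans ?_ ih
    rw [← add_assoc]
    have h1 : tr φ ψ j (a + u + 1) v = tr φ ψ j (a + u) v +
        ((ψ j (a + u) (φ j (a + u) v) : ℕ) : ℝ) / (Fintype.card F : ℝ) ^ (a + u + 1) := by
      unfold tr
      rw [Finset.sum_range_succ]
    rw [h1]
    have h2 : ((ψ j (a + u) (φ j (a + u) v) : ℕ) : ℝ) ≤ (Fintype.card F : ℝ) - 1 := by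
      have := (ψ j (a + u) (φ j (a + u) v)).isLt
      have h3 : ((ψ j (a + u) (φ j (a + u) v) : ℕ) : ℝ) + 1 ≤ (Fintype.card F : ℝ) := by
        exact_mod_cast this
      linarith
    have h4 : (0 : ℝ) < (Fintype.card F : ℝ) ^ (a + u + 1) := by positivity
    have h5 : 1 / (Fintype.card F : ℝ) ^ (a + u) =
        (Fintype.card F : ℝ) / (Fintype.card F : ℝ) ^ (a + u + 1) := by
      rw [pow_succ]; field_simp
    have h6 : ((ψ j (a + u) (φ j (a + u) v) : ℕ) : ℝ) / (Fintype.card F : ℝ) ^ (a + u + 1) +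
        1 / (Fintype.card F : ℝ) ^ (a + u + 1) ≤ 1 / (Fintype.card F : ℝ) ^ (a + u) := by
      rw [h5, ← add_div]
      gcongr
      linarith
    linarith

lemma tr_mono (φ : Rows F m D) (ψ : Digs F D) (j : Fin (D + 2)) (a u : ℕ) (v : Fin m → F) :
    tr φ ψ j a v ≤ tr φ ψ j (a + u) v := by
  unfold tr
  rw [Finset.sum_range_add]
  have : 0 ≤ ∑ x ∈ range u, ((ψ j (a + x) (φ j (a + x) v) : ℕ) : ℝ) /
      (Fintype.card F : ℝ) ^ (a + x + 1) := by positivity
  linarith

end TAux

open TAux in
theorem t_T (h1 : StmKK) (_h5 : StmGeo) : StmT := by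
  classical
  intro F _ _ m D φ ψ x hx R hR
  have hq := q_gt (F := F)
  have hq0 : (0 : ℝ) < Fintype.card F := by linarith
  constructor
  · -- a tiny box around the point with index `0`
    set Q : ℝ := (Fintype.card F : ℝ) ^ m with hQ
    have hQ1 : 1 ≤ Q := one_le_pow₀ hq.le
    have hx0 : ∀ j, 0 ≤ x 0 j := fun j => (tr_nonneg φ ψ j m 0).trans (hx 0 j).1
    have hx1 : ∀ j, x 0 j < 1 := by
      intro j
      refine lt_of_lt_of_le (hx 0 j).2 ?_
      have := tr_add_le φ ψ j 0 m 0
      simp only [zero_add, pow_zero, div_one] at this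
      have h0 : tr φ ψ j 0 0 = 0 := by simp [tr]
      rw [h0] at this
      linarith
    set X : Fin (D + 2) → ℝ := fun j => min 1 (x 0 j + 1 / (2 * Q)) with hX
    have hδ : 0 < 1 / (2 * Q) := by positivity
    have hδ1 : 1 / (2 * Q) ≤ 1 := by
      rw [div_le_one (by positivity)]; linarith
    have hlt : ∀ j, x 0 j < X j := fun j => lt_min (hx1 j) (by linarith)
    have hb := hR (x 0) X fun j => ⟨hx0 j, (hlt j).le, min_le_left _ _⟩
    have hc : (1 : ℝ) ≤ cnt x (x 0) X := by
      have : 0 < cnt x (x 0) X := by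
        rw [cnt, Finset.card_pos]
        exact ⟨0, by simp [hlt]⟩
      exact_mod_cast this
    have hvol : ∏ j, (X j - x 0 j) ≤ 1 / (2 * Q) := by
      have h2 : ∀ j, X j - x 0 j ≤ 1 / (2 * Q) := by
        intro j
        have : X j ≤ x 0 j + 1 / (2 * Q) := min_le_right _ _
        linarith
      calc ∏ j, (X j - x 0 j) ≤ ∏ _j : Fin (D + 2), (1 / (2 * Q)) :=
            Finset.prod_le_prod (fun j _ => by have := hlt j; linarith) fun j _ => h2 j
        _ = (1 / (2 * Q)) ^ (D + 2) := by simp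
        _ ≤ (1 / (2 * Q)) ^ 1 := pow_le_pow_of_le_one hδ.le hδ1 (by omega)
        _ = 1 / (2 * Q) := pow_one _
    have h3 : Q * ∏ j, (X j - x 0 j) ≤ 1 / 2 := by
      calc Q * ∏ j, (X j - x 0 j) ≤ Q * (1 / (2 * Q)) := by gcongr
        _ = 1 / 2 := by field_simp
    have h4 := (abs_le.mp hb).2
    linarith
  · intro t ht a hat
    by_contra hdep
    have hsum : (∑ j, a j) ≤ m := by omega
    have hkk := (h1 F m D φ a).2.2 hsum hdep
    have haj : ∀ j, a j ≤ m := fun j =>
      (Finset.single_le_sum (fun i _ => Nat.zero_le (a i)) (Finset.mem_univ j)).trans hsum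
    set Y : Fin (D + 2) → ℝ := fun j => tr φ ψ j (a j) 0 with hY
    set X : Fin (D + 2) → ℝ := fun j => tr φ ψ j (a j) 0 + 1 / (Fintype.card F : ℝ) ^ (a j)
      with hX
    have hb := hR Y X fun j => by
      refine ⟨tr_nonneg φ ψ j (a j) 0, ?_, ?_⟩
      · simp only [hX, hY]
        have : 0 < 1 / (Fintype.card F : ℝ) ^ (a j) := by positivity
        linarith
      · have := tr_add_le φ ψ j 0 (a j) 0
        simp only [zero_add, pow_zero, div_one] at this
        have h0 : tr φ ψ j 0 0 = 0 := by simp [tr]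
        rw [h0] at this
        simp only [hX]
        linarith
    have hcount : (kk φ a : ℝ) ≤ cnt x Y X := by
      have : kk φ a ≤ cnt x Y X := by
        rw [kk, cnt]
        refine Finset.card_le_card fun v hv => ?_
        simp only [Finset.mem_filter, Finset.mem_univ, true_and] at hv ⊢
        intro j
        have htr : tr φ ψ j (a j) v = tr φ ψ j (a j) 0 := by
          unfold tr
          refine Finset.sum_congr rfl fun i hi => ?_
          rw [hv j i (Finset.mem_range.mp hi), map_zero (φ j i)]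
        obtain ⟨u, hu⟩ := Nat.exists_eq_add_of_le (haj j)
        have hm1 := tr_mono φ ψ j (a j) u v
        have hm2 := tr_add_le φ ψ j (a j) u v
        rw [← hu] at hm1 hm2
        constructor
        · calc Y j = tr φ ψ j (a j) v := htr.symm
            _ ≤ tr φ ψ j m v := hm1
            _ ≤ x v j := (hx v j).1
        · calc x v j < tr φ ψ j m v + 1 / (Fintype.card F : ℝ) ^ m := (hx v j).2
            _ ≤ tr φ ψ j (a j) v + 1 / (Fintype.card F : ℝ) ^ (a j) := hm2
            _ = X j := by rw [htr]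
      exact_mod_cast this
    have hprod : ∏ j, (X j - Y j) = 1 / (Fintype.card F : ℝ) ^ (∑ j, a j) := by
      rw [← Finset.prod_pow_eq_pow_sum, one_div, ← Finset.prod_inv_distrib]
      refine Finset.prod_congr rfl fun j _ => ?_
      simp only [hX, hY]
      rw [add_sub_cancel_left, one_div]
    have hvol : (Fintype.card F : ℝ) ^ m * ∏ j, (X j - Y j) =
        (Fintype.card F : ℝ) ^ (m - ∑ j, a j) := by
      rw [hprod, pow_sub₀ _ hq0.ne' hsum, one_div]
    have hkk' : (Fintype.card F : ℝ) ^ (m - (∑ j, a j) + 1) ≤ kk φ a := by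
      exact_mod_cast hkk
    have h4 := (abs_le.mp hb).2
    rw [hvol] at h4
    have h5 : (Fintype.card F : ℝ) ^ t ≤ (Fintype.card F : ℝ) ^ (m - ∑ j, a j) :=
      pow_le_pow_right₀ hq.le (by omega)
    have h6 : (2 : ℝ) ≤ Fintype.card F := by exact_mod_cast Fintype.one_lt_card
    have h7 : 2 * (Fintype.card F : ℝ) ^ (m - ∑ j, a j) ≤
        (Fintype.card F : ℝ) ^ (m - (∑ j, a j) + 1) := by
      rw [pow_succ, mul_comm]
      gcongr
    linarith

end Pool.Agent.Q71.DN
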