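import Pool.Agent.Q71.DN.Fin5
import Pool.Agent.Q237.DN.KK
import Pool.Agent.Q237.DN.Alt
import Pool.Agent.Q237.DN.Phi
import Pool.Agent.Q237.DN.Exp
import Pool.Agent.Q237.DN.Geo
import Pool.Agent.Q174.DN.Real
import Pool.Agent.Q241.DN.DN8
import Pool.Agent.Q38.DN.Zero
import Pool.Agent.Q190.DN.Pair
import Pool.Agent.Q71.DN.Star
import Pool.Agent.Q71.DN.TT
import Pool.Agent.Q38.DN.Core

set_option autoImplicit false

namespace Pool.Agent.Q71.DN

theorem kk_thm : StmKK := Pool.Agent.Q237.DN.t_KK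
theorem alt_thm : StmAlt := Pool.Agent.Q237.DN.t_Alt
theorem phi_thm : StmPhi := Pool.Agent.Q237.DN.t_Phi kk_thm alt_thm
theorem exp_thm : StmExp := Pool.Agent.Q237.DN.t_Exp
theorem geo_thm : StmGeo := Pool.Agent.Q237.DN.t_Geo
theorem real_thm : StmReal := Pool.Agent.Q174.DN.t_Real geo_thm
theorem cell_thm : StmCell := Pool.Agent.Q241.DN.t_Cell
theorem zero_thm : StmZero := Pool.Agent.Q38.DN.t_Zero
theorem pair_thm : StmPair := Pool.Agent.Q190.DN.t_Pair cell_thm zero_thm
theorem core_thm : StmCore := Pool.Agent.Q38.DN.t_Core pair_thm real_thm exp_thm phi_thm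
theorem t_thm : StmT := t_T kk_thm geo_thm
theorem main_thm : StmMain := main t_thm core_thm
theorem star_thm : StmStar := t_Star

end Pool.Agent.Q71.DN
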