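import Pool.Agent.Q71.DN.Main

set_option autoImplicit false

namespace Pool.Agent.Q71.DN

open Finset MeasureTheory

/-- The `i`-th digit in base `q` (`i = 0` is the first digit after the point) of `y ∈ [0,1)`. -/
noncomputable def digitAt (q i : ℕ) (y : ℝ) : ℕ := ⌊(q : ℝ) ^ (i + 1) * y⌋₊ % q

theorem digit_sum (q : ℕ) (hq : 2 ≤ q) (y : ℝ) (hy0 : 0 ≤ y) (hy1 : y < 1) (m : ℕ) :
    ∑ i ∈ range m, (digitAt q i y : ℝ) / (q : ℝ) ^ (i + 1) = (⌊(q : ℝ) ^ m * y⌋₊ : ℝ) / (q : ℝ) ^ m := by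
  have hq0 : (0 : ℝ) < q := by positivity
  induction m with
  | zero =>
    simp only [range_zero, sum_empty, pow_zero, one_mul, div_one]
    have : ⌊y⌋₊ = 0 := Nat.floor_eq_zero.mpr hy1
    rw [this]; simp
  | succ m ih =>
    rw [sum_range_succ, ih]
    have h1 : ⌊(q : ℝ) ^ (m + 1) * y⌋₊ / q = ⌊(q : ℝ) ^ m * y⌋₊ := by
      rw [← Nat.floor_div_natCast]
      congr 1
      rw [pow_succ]; field_simp
    have h2 := Nat.div_add_mod ⌊(q : ℝ) ^ (m + 1) * y⌋₊ q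
    rw [h1] at h2
    have h3 : (⌊(q : ℝ) ^ (m + 1) * y⌋₊ : ℝ) = (q : ℝ) * ⌊(q : ℝ) ^ m * y⌋₊ + digitAt q m y := by
      unfold digitAt
      rw [← Nat.cast_mul, ← Nat.cast_add, h2]
    rw [h3, pow_succ]
    field_simp

theorem digit_bounds (q : ℕ) (hq : 2 ≤ q) (y : ℝ) (hy0 : 0 ≤ y) (hy1 : y < 1) (m : ℕ) :
    ∑ i ∈ range m, (digitAt q i y : ℝ) / (q : ℝ) ^ (i + 1) ≤ y ∧
      y < ∑ i ∈ range m, (digitAt q i y : ℝ) / (q : ℝ) ^ (i + 1) + 1 / (q : ℝ) ^ m := by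
  have hq0 : (0 : ℝ) < (q : ℝ) ^ m := by positivity
  rw [digit_sum q hq y hy0 hy1 m, ← add_div]
  constructor
  · rw [div_le_iff₀ hq0, mul_comm]
    exact Nat.floor_le (by positivity)
  · rw [lt_div_iff₀ hq0, mul_comm]
    exact Nat.lt_floor_add_one _

/-- The local discrepancy `∏ x_j - (1/N) Σ_μ χ_{[0,x]}(ξ^μ)` of `N` points `ξ` at `x`. -/
noncomputable def localDisc {N d : ℕ} (ξ : Fin N → Fin d → ℝ) (x : Fin d → ℝ) : ℝ :=
  ∏ j, x j - (1 / (N : ℝ)) * ∑ μ : Fin N, (Set.Icc (0 : Fin d → ℝ) x).indicator (fun _ => (1 : ℝ)) (ξ μ)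

/-- The `L_∞` norm of the local discrepancy over `[0,1]^d`. -/
noncomputable def starDisc {N d : ℕ} (ξ : Fin N → Fin d → ℝ) : ENNReal :=
  eLpNorm (localDisc ξ) ⊤ (volume.restrict (Set.Icc (0 : Fin d → ℝ) 1))

/-- The `q^m` points `ξ` form a digital point set. -/
def IsDigital {F : Type} [Field F] [Fintype F] {m d : ℕ} (C : Fin d → Matrix (Fin m) (Fin m) F)
    (ψ : Fin d → Fin m → (F ≃ Fin (Fintype.card F)))
    (ξ : Fin (Fintype.card F ^ m) → Fin d → ℝ) : Prop :=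
  ∃ e : Fin (Fintype.card F ^ m) ≃ (Fin m → F), ∀ μ j, 0 ≤ ξ μ j ∧ ξ μ j < 1 ∧
    ∀ i : Fin m, digitAt (Fintype.card F) i (ξ μ j) = (ψ j i ((C j).mulVec (e μ) i) : ℕ)

open Classical in
/-- `(t,m,d)`-nets in base `b`. -/
def IsPNet (b t m : ℕ) {d : ℕ} (ξ : Fin (b ^ m) → Fin d → ℝ) : Prop :=
  ∀ k v : Fin d → ℕ, ∑ i, k i + t = m → (∀ i, v i < b ^ k i) →
    (univ.filter (fun μ => ∀ i, (v i : ℝ) / (b:ℝ) ^ k i ≤ ξ μ i ∧
      ξ μ i < ((v i : ℝ) + 1) / (b:ℝ) ^ k i)).card = b ^ t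

/-- The functionals that belong to the generating matrices. -/
noncomputable def rowsOf {F : Type} [Field F] {m D : ℕ} (C : Fin (D + 2) → Matrix (Fin m) (Fin m) F) :
    Rows F m D := fun j i =>
  if h : i < m then (LinearMap.proj (⟨i, h⟩ : Fin m)).comp (Matrix.mulVecLin (C j)) else 0

theorem rowsOf_apply {F : Type} [Field F] {m D : ℕ} (C : Fin (D + 2) → Matrix (Fin m) (Fin m) F)
    (j : Fin (D + 2)) (i : ℕ) (h : i < m) (v : Fin m → F) :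
    rowsOf C j i v = (C j).mulVec v ⟨i, h⟩ := by
  simp [rowsOf, h]

/-- The digit bijections extended. -/
noncomputable def digsOf {F : Type} [Field F] [Fintype F] {m D : ℕ}
    (ψ : Fin (D + 2) → Fin m → (F ≃ Fin (Fintype.card F))) : Digs F D := fun j i =>
  if h : i < m then ψ j ⟨i, h⟩ else Fintype.equivFin F

theorem digsOf_apply {F : Type} [Field F] [Fintype F] {m D : ℕ}
    (ψ : Fin (D + 2) → Fin m → (F ≃ Fin (Fintype.card F))) (j : Fin (D + 2)) (i : ℕ)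
    (h : i < m) : digsOf ψ j i = ψ j ⟨i, h⟩ := by
  simp [digsOf, h]

/-- `IsDig` from digit equations. -/
theorem isDig_of_digits {F : Type} [Field F] [Fintype F] {m D : ℕ} (φ : Rows F m D)
    (ψ : Digs F D) (x : (Fin m → F) → Fin (D + 2) → ℝ)
    (h : ∀ v j, 0 ≤ x v j ∧ x v j < 1 ∧
      ∀ i < m, digitAt (Fintype.card F) i (x v j) = (ψ j i (φ j i v) : ℕ)) : IsDig φ ψ x := by
  intro v j
  have hq : 2 ≤ Fintype.card F := Fintype.one_lt_card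
  obtain ⟨h0, h1, h2⟩ := h v j
  have h3 := digit_bounds (Fintype.card F) hq (x v j) h0 h1 m
  have h4 : tr φ ψ j m v =
      ∑ i ∈ range m, (digitAt (Fintype.card F) i (x v j) : ℝ) / (Fintype.card F : ℝ) ^ (i + 1) := by
    unfold tr
    refine sum_congr rfl fun i hi => ?_
    rw [h2 i (mem_range.mp hi)]
  rw [h4]
  exact h3

theorem isDig_of_isDigital {F : Type} [Field F] [Fintype F] {m D : ℕ}
    (C : Fin (D + 2) → Matrix (Fin m) (Fin m) F)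
    (ψ : Fin (D + 2) → Fin m → (F ≃ Fin (Fintype.card F)))
    (ξ : Fin (Fintype.card F ^ m) → Fin (D + 2) → ℝ)
    (e : Fin (Fintype.card F ^ m) ≃ (Fin m → F))
    (he : ∀ μ j, 0 ≤ ξ μ j ∧ ξ μ j < 1 ∧
    ∀ i : Fin m, digitAt (Fintype.card F) i (ξ μ j) = (ψ j i ((C j).mulVec (e μ) i) : ℕ)) :
    IsDig (rowsOf C) (digsOf ψ) (fun v => ξ (e.symm v)) := by
  apply isDig_of_digits
  intro v j
  obtain ⟨h0, h1, h2⟩ := he (e.symm v) j
  refine ⟨h0, h1, fun i hi => ?_⟩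
  rw [h2 ⟨i, hi⟩, digsOf_apply ψ j i hi, rowsOf_apply C j i hi]
  simp

end Pool.Agent.Q71.DN
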