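import Pool.Agent.Q71.DN.Fin1

set_option autoImplicit false

namespace Pool.Agent.Q71.DN

open Finset MeasureTheory

theorem bd_of_star (hS : StmStar) {F : Type} [Field F] [Fintype F] {m D : ℕ}
    (ξ : Fin (Fintype.card F ^ m) → Fin (D + 2) → ℝ) (hξ : ∀ μ j, 0 ≤ ξ μ j ∧ ξ μ j < 1)
    (e : Fin (Fintype.card F ^ m) ≃ (Fin m → F)) (R : ℝ) (hR : 0 ≤ R)
    (h : starDisc ξ ≤ ENNReal.ofReal (R / ((Fintype.card F ^ m : ℕ) : ℝ))) :
    Bd (fun v => ξ (e.symm v)) (2 ^ (D + 2) * R) := by
  classical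
  intro Y X hYX
  have hN : 1 ≤ Fintype.card F ^ m := Nat.one_le_pow _ _ Fintype.card_pos
  have h1 := hS (Fintype.card F ^ m) (D + 2) ξ hN hξ R hR h Y X hYX
  have h2 : Nat.card {μ : Fin (Fintype.card F ^ m) // ∀ j, Y j ≤ ξ μ j ∧ ξ μ j < X j} =
      cnt (fun v => ξ (e.symm v)) Y X := by
    unfold cnt
    rw [Nat.card_eq_fintype_card, Fintype.card_subtype]
    refine Finset.card_bij (fun μ _ => e μ) ?_ ?_ ?_
    · intro μ hμ
      simpa using hμ
    · intro a _ b _ hab
      exact e.injective hab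
    · intro v hv
      refine ⟨e.symm v, ?_, by simp⟩
      simpa using hv
  rw [h2] at h1
  push_cast at h1 ⊢
  exact h1

/-- The digital net property from the geometric one. -/
theorem isNet_of_count (hKK : StmKK) {F : Type} [Field F] [Fintype F] {m D t : ℕ}
    (φ : Rows F m D) (ψ : Digs F D) (x : (Fin m → F) → Fin (D + 2) → ℝ)
    (h : ∀ v j, 0 ≤ x v j ∧ x v j < 1 ∧
      ∀ i < m, digitAt (Fintype.card F) i (x v j) = (ψ j i (φ j i v) : ℕ))
    (hp : ∀ k w : Fin (D + 2) → ℕ, ∑ i, k i + t = m → (∀ i, w i < Fintype.card F ^ k i) →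
      Nat.card {v : Fin m → F // ∀ i, (w i : ℝ) / (Fintype.card F : ℝ) ^ k i ≤ x v i ∧
        x v i < ((w i : ℝ) + 1) / (Fintype.card F : ℝ) ^ k i} ≤ Fintype.card F ^ t) :
    IsNet t φ := by
  classical
  have hq : 2 ≤ Fintype.card F := Fintype.one_lt_card
  -- exact level
  have main : ∀ k : Fin (D + 2) → ℕ, ∑ i, k i + t = m →
      LinearIndependent F (fun y : (Σ j, Fin (k j)) => φ y.1 (y.2 : ℕ)) := by
    intro k hk
    by_contra hli
    have hkk := (hKK F m D φ k).2.2 (by omega) hli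
    have hkm : ∀ i, k i ≤ m := fun i => by
      have := Finset.single_le_sum (f := k) (fun j _ => Nat.zero_le _) (mem_univ i)
      omega
    have hcount := hp k (fun i => ⌊(Fintype.card F : ℝ) ^ k i * x 0 i⌋₊) hk (by
      intro i
      rw [Nat.floor_lt (by have := (h 0 i).1; positivity)]
      have h1 := (h 0 i).2.1
      have : (0 : ℝ) < (Fintype.card F : ℝ) ^ k i := by positivity
      push_cast
      nlinarith)
    have hsub : kk φ k ≤ Nat.card {v : Fin m → F // ∀ i,
        ((⌊(Fintype.card F : ℝ) ^ k i * x 0 i⌋₊ : ℕ) : ℝ) / (Fintype.card F : ℝ) ^ k i ≤ x v i ∧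
        x v i < (((⌊(Fintype.card F : ℝ) ^ k i * x 0 i⌋₊ : ℕ) : ℝ) + 1) /
          (Fintype.card F : ℝ) ^ k i} := by
      unfold kk
      rw [Nat.card_eq_fintype_card, Fintype.card_subtype]
      apply Finset.card_le_card
      intro v hv
      rw [mem_filter] at hv ⊢
      refine ⟨mem_univ _, fun i => ?_⟩
      have hfl : ⌊(Fintype.card F : ℝ) ^ k i * x 0 i⌋₊ = ⌊(Fintype.card F : ℝ) ^ k i * x v i⌋₊ := by
        have e1 := digit_sum (Fintype.card F) hq (x 0 i) (h 0 i).1 (h 0 i).2.1 (k i)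
        have e2 := digit_sum (Fintype.card F) hq (x v i) (h v i).1 (h v i).2.1 (k i)
        have e3 : ∑ l ∈ range (k i), (digitAt (Fintype.card F) l (x 0 i) : ℝ) /
            (Fintype.card F : ℝ) ^ (l + 1) = ∑ l ∈ range (k i),
            (digitAt (Fintype.card F) l (x v i) : ℝ) / (Fintype.card F : ℝ) ^ (l + 1) := by
          refine sum_congr rfl fun l hl => ?_
          have hl' := mem_range.mp hl
          rw [(h 0 i).2.2 l (lt_of_lt_of_le hl' (hkm i)), (h v i).2.2 l (lt_of_lt_of_le hl' (hkm i)),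
            hv.2 i l hl']
          simp
        rw [e1, e2] at e3
        have hp0 : (Fintype.card F : ℝ) ^ k i ≠ 0 := by positivity
        have e4 : (⌊(Fintype.card F : ℝ) ^ k i * x 0 i⌋₊ : ℝ) =
            ⌊(Fintype.card F : ℝ) ^ k i * x v i⌋₊ := by
          field_simp at e3
          exact e3
        exact_mod_cast e4
      rw [hfl]
      have hp1 : (0 : ℝ) < (Fintype.card F : ℝ) ^ k i := by positivity
      constructor
      · rw [div_le_iff₀ hp1, mul_comm]
        exact Nat.floor_le (mul_nonneg (h v i).1 hp1.le)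
      · rw [lt_div_iff₀ hp1, mul_comm]
        exact Nat.lt_floor_add_one _
    have hlt : Fintype.card F ^ t < Fintype.card F ^ (m - (∑ j, k j) + 1) :=
      Nat.pow_lt_pow_right (by omega) (by omega)
    omega
  intro a ha
  -- extend the levels in coordinate 0
  set a' : Fin (D + 2) → ℕ := Function.update a 0 (a 0 + (m - t - ∑ j, a j)) with ha'
  have hle : ∀ j, a j ≤ a' j := by
    intro j
    by_cases hj : j = 0
    · subst hj; simp [ha']
    · simp [ha', Function.update_of_ne hj]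
  have hsum : ∑ j, a' j + t = m := by
    have h1 : ∑ j, a' j = ∑ j, a j + (m - t - ∑ j, a j) := by
      rw [← Finset.add_sum_erase univ a' (mem_univ 0), ← Finset.add_sum_erase univ a (mem_univ 0)]
      have : ∑ j ∈ univ.erase (0 : Fin (D + 2)), a' j = ∑ j ∈ univ.erase (0 : Fin (D + 2)), a j := by
        refine sum_congr rfl fun j hj => ?_
        simp [ha', Function.update_of_ne (Finset.ne_of_mem_erase hj)]
      rw [this]
      have : a' 0 = a 0 + (m - t - (a 0 + ∑ j ∈ univ.erase (0 : Fin (D + 2)), a j)) := by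
        rw [ha', Function.update_self, Finset.add_sum_erase univ a (mem_univ 0)]
      rw [this]; omega
    omega
  have hli := main a' hsum
  have := hli.comp (fun y : (Σ j, Fin (a j)) => (⟨y.1, Fin.castLE (hle y.1) y.2⟩ : (Σ j, Fin (a' j)))) (by
    rintro ⟨j1, i1⟩ ⟨j2, i2⟩ h12
    simp only [Sigma.mk.injEq] at h12
    obtain ⟨h1, h2⟩ := h12
    subst h1
    have h3 := eq_of_heq h2
    have h4 : i1 = i2 := Fin.castLE_injective (hle j1) h3
    rw [h4])
  exact this

/-- The part on nets. -/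
theorem nets (hKK : StmKK) (hS : StmStar) (hM : StmMain) (D : ℕ) (hD : 1 ≤ D) :
    ∃ c : ℝ, 0 < c ∧ ∀ (F : Type) [Field F] [Fintype F] (m : ℕ)
      (C : Fin (D + 2) → Matrix (Fin m) (Fin m) F)
      (ψ : Fin (D + 2) → Fin m → (F ≃ Fin (Fintype.card F)))
      (ξ : Fin (Fintype.card F ^ m) → Fin (D + 2) → ℝ), IsDigital C ψ ξ →
      (∀ t : ℕ, IsPNet (Fintype.card F) t m ξ →
        ENNReal.ofReal (c * ((m : ℝ) / ((Fintype.card F : ℝ) * ((t : ℝ) + 1) ^ 2)) ^ (D + 1) /
          ((Fintype.card F : ℝ) ^ m)) ≤ starDisc ξ) ∧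
      ENNReal.ofReal (c * ((m : ℝ) / ((Fintype.card F : ℝ) * (1 + Real.log m) ^ 2)) ^ (D + 1) /
          ((Fintype.card F : ℝ) ^ m)) ≤ starDisc ξ := by
  classical
  obtain ⟨c, hc, hmain⟩ := hM D hD
  refine ⟨c / 2 ^ (D + 3), by positivity, ?_⟩
  intro F _ _ m C ψ ξ hdig
  obtain ⟨e, he⟩ := hdig
  have hq : 2 ≤ Fintype.card F := Fintype.one_lt_card
  have hqm : (0 : ℝ) < (Fintype.card F : ℝ) ^ m := by positivity
  have hx := isDig_of_isDigital C ψ ξ e he
  -- general conclusion
  have gen : ∀ A : ℝ, (∀ R : ℝ, Bd (fun v => ξ (e.symm v)) R → c * A ≤ R) → 0 ≤ A →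
      ENNReal.ofReal (c / 2 ^ (D + 3) * A / ((Fintype.card F : ℝ) ^ m)) ≤ starDisc ξ := by
    intro A hA hA0
    by_contra hlt
    rw [not_le] at hlt
    have h1 := bd_of_star hS ξ (fun μ j => ⟨(he μ j).1, (he μ j).2.1⟩) e
      (c / 2 ^ (D + 3) * A) (by positivity) (by push_cast; exact hlt.le)
    have h2 := hA _ h1
    have h3 : (2 : ℝ) ^ (D + 2) * (c / 2 ^ (D + 3) * A) = c * A / 2 := by
      rw [pow_succ (2 : ℝ) (D + 2)]
      field_simp
    rw [h3] at h2
    have hcA : c * A = 0 := by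
      have : 0 ≤ c * A := by positivity
      linarith
    have : c / 2 ^ (D + 3) * A / ((Fintype.card F : ℝ) ^ m) = 0 := by
      have : c / 2 ^ (D + 3) * A = c * A / 2 ^ (D + 3) := by ring
      rw [this, hcA]; simp
    rw [this, ENNReal.ofReal_zero] at hlt
    exact absurd hlt not_lt_zero
  constructor
  · intro t ht
    have hnet : IsNet t (rowsOf C) := by
      apply isNet_of_count hKK (rowsOf C) (digsOf ψ) (fun v => ξ (e.symm v))
      · intro v j
        obtain ⟨h0, h1, h2⟩ := he (e.symm v) j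
        refine ⟨h0, h1, fun i hi => ?_⟩
        rw [h2 ⟨i, hi⟩, digsOf_apply ψ j i hi, rowsOf_apply C j i hi]
        simp
      · intro k w hk hw
        have h1 := ht k w hk hw
        rw [← h1]
        apply le_of_eq
        rw [Nat.card_eq_fintype_card, Fintype.card_subtype]
        refine (Finset.card_bij (fun μ _ => e μ) ?_ ?_ ?_).symm
        · intro μ hμ
          simpa using hμ
        · intro a _ b _ hab
          exact e.injective hab
        · intro v hv
          refine ⟨e.symm v, ?_, by simp⟩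
          simpa using hv
    exact gen _ (fun R hR => (hmain F m _ _ _ hx R hR).1 t hnet) (by positivity)
  · exact gen _ (fun R hR => (hmain F m _ _ _ hx R hR).2.1) (by
      have : (0 : ℝ) ≤ (1 + Real.log m) ^ 2 := sq_nonneg _
      positivity)

end Pool.Agent.Q71.DN
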