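import Pool.Agent.Q71.DN.Fin2

set_option autoImplicit false

namespace Pool.Agent.Q71.DN

open Finset MeasureTheory

/-- Digital sequences. -/
def IsDigitalSeq {F : Type} [Field F] [Fintype F] {s : ℕ} (C : Fin s → ℕ → ℕ → F) (l₀ : ℕ)
    (η : ℕ → ℕ → F) (ψ : Fin s → ℕ → (F ≃ Fin (Fintype.card F))) (x : ℕ → Fin s → ℝ) : Prop :=
  (∀ l, Set.InjOn (η l) (Set.Iio (Fintype.card F))) ∧ (∀ l, l₀ ≤ l → η l 0 = 0) ∧
  ∀ n j, 0 ≤ x n j ∧ x n j < 1 ∧ ∀ i, digitAt (Fintype.card F) i (x n j) =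
    (ψ j i (∑ l ∈ range (n + l₀), C j i l * η l (n / Fintype.card F ^ l % Fintype.card F)) : ℕ)

open Classical in
/-- `(t,s)`-sequences in base `b`. -/
def IsTSeq (b t : ℕ) {s : ℕ} (x : ℕ → Fin s → ℝ) : Prop :=
  ∀ k m : ℕ, ∀ κ v : Fin s → ℕ, ∑ i, κ i + t = m → (∀ i, v i < b ^ κ i) →
    ((Ico (k * b ^ m) ((k + 1) * b ^ m)).filter (fun n => ∀ i, (v i : ℝ) / (b:ℝ) ^ κ i ≤ x n i ∧
      x n i < ((v i : ℝ) + 1) / (b:ℝ) ^ κ i)).card = b ^ t

section seq

variable {F : Type} [Field F] [Fintype F] {D : ℕ}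

/-- `η l` as a bijection. -/
noncomputable def etaE (η : ℕ → ℕ → F) (hη : ∀ l, Set.InjOn (η l) (Set.Iio (Fintype.card F)))
    (l : ℕ) : Fin (Fintype.card F) ≃ F :=
  Equiv.ofBijective (fun a => η l a) (by
    rw [Fintype.bijective_iff_injective_and_card]
    refine ⟨fun a b hab => Fin.ext (hη l a.2 b.2 hab), by simp⟩)

theorem etaE_apply (η : ℕ → ℕ → F) (hη : ∀ l, Set.InjOn (η l) (Set.Iio (Fintype.card F)))
    (l : ℕ) (a : Fin (Fintype.card F)) : etaE η hη l a = η l a := rfl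

/-- numbering of the first `q^m` points by vectors -/
noncomputable def nn (η : ℕ → ℕ → F) (hη : ∀ l, Set.InjOn (η l) (Set.Iio (Fintype.card F)))
    (m : ℕ) : (Fin m → F) ≃ Fin (Fintype.card F ^ m) :=
  (Equiv.piCongrRight (fun l : Fin m => (etaE η hη l).symm)).trans finFunctionFinEquiv

theorem nn_digit (η : ℕ → ℕ → F) (hη : ∀ l, Set.InjOn (η l) (Set.Iio (Fintype.card F)))
    (m : ℕ) (v : Fin m → F) (l : Fin m) :
    ((nn η hη m v : ℕ) / Fintype.card F ^ (l : ℕ) % Fintype.card F) =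
      ((etaE η hη l).symm (v l) : ℕ) := by
  have h1 : finFunctionFinEquiv.symm (nn η hη m v) = fun l : Fin m => (etaE η hη l).symm (v l) := by
    unfold nn
    simp only [Equiv.trans_apply, Equiv.symm_apply_apply]
    rfl
  have h2 := congrArg (fun f => ((f l : Fin (Fintype.card F)) : ℕ)) h1
  simp only at h2
  rw [← h2]
  rfl

theorem eta_nn (η : ℕ → ℕ → F) (hη : ∀ l, Set.InjOn (η l) (Set.Iio (Fintype.card F)))
    (m : ℕ) (v : Fin m → F) (l : Fin m) :
    η l ((nn η hη m v : ℕ) / Fintype.card F ^ (l : ℕ) % Fintype.card F) = v l := by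
  rw [nn_digit, ← etaE_apply η hη]
  simp

/-- The functionals. -/
noncomputable def seqRows (C : Fin (D + 1) → ℕ → ℕ → F) (m : ℕ) : Rows F m D :=
  Fin.cons (α := fun _ => ℕ → ((Fin m → F) →ₗ[F] F))
    (fun i => if h : i < m then LinearMap.proj (⟨m - 1 - i, by omega⟩ : Fin m) else 0)
    (fun j i => ∑ l : Fin m, C j i l • LinearMap.proj l)

/-- The digit maps. -/
noncomputable def seqDigs (C : Fin (D + 1) → ℕ → ℕ → F) (η : ℕ → ℕ → F)
    (hη : ∀ l, Set.InjOn (η l) (Set.Iio (Fintype.card F)))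
    (ψ : Fin (D + 1) → ℕ → (F ≃ Fin (Fintype.card F))) (l₀ m : ℕ) : Digs F D :=
  Fin.cons (α := fun _ => ℕ → (F ≃ Fin (Fintype.card F)))
    (fun i => (etaE η hη (m - 1 - i)).symm)
    (fun j i => (Equiv.addRight (∑ l ∈ Ico m (m + l₀), C j i l * η l 0)).trans (ψ j i))

/-- The points. -/
noncomputable def seqPts (x : ℕ → Fin (D + 1) → ℝ) (η : ℕ → ℕ → F)
    (hη : ∀ l, Set.InjOn (η l) (Set.Iio (Fintype.card F))) (m : ℕ) :
    (Fin m → F) → Fin (D + 2) → ℝ := fun v =>
  Fin.cons (α := fun _ => ℝ) (((nn η hη m v : ℕ) : ℝ) / (Fintype.card F : ℝ) ^ m)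
    (x (nn η hη m v))

theorem seq_digits (C : Fin (D + 1) → ℕ → ℕ → F) (l₀ : ℕ)
    (η : ℕ → ℕ → F) (ψ : Fin (D + 1) → ℕ → (F ≃ Fin (Fintype.card F)))
    (x : ℕ → Fin (D + 1) → ℝ) (hx : IsDigitalSeq C l₀ η ψ x) (m : ℕ) :
    ∀ v j, 0 ≤ seqPts x η hx.1 m v j ∧ seqPts x η hx.1 m v j < 1 ∧
      ∀ i < m, digitAt (Fintype.card F) i (seqPts x η hx.1 m v j) =
        (seqDigs C η hx.1 ψ l₀ m j i (seqRows C m j i v) : ℕ) := by
  obtain ⟨hη, hη0, hxx⟩ := hx
  have hq : 2 ≤ Fintype.card F := Fintype.one_lt_card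
  have hq0 : (0 : ℝ) < (Fintype.card F : ℝ) := by positivity
  intro v j
  have hn := (nn η hη m v).2
  set n : ℕ := (nn η hη m v : ℕ) with hndef
  refine Fin.cases ?_ (fun j => ?_) j
  · have hz : seqPts x η hη m v 0 = (n : ℝ) / (Fintype.card F : ℝ) ^ m := rfl
    rw [hz]
    refine ⟨by positivity, ?_, ?_⟩
    · rw [div_lt_one (by positivity)]
      exact_mod_cast hn
    · intro i hi
      have h1 : (Fintype.card F : ℝ) ^ (i + 1) * ((n : ℝ) / (Fintype.card F : ℝ) ^ m) =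
          (n : ℝ) / ((Fintype.card F ^ (m - 1 - i) : ℕ) : ℝ) := by
        push_cast
        have : (Fintype.card F : ℝ) ^ m = (Fintype.card F : ℝ) ^ (i + 1) *
            (Fintype.card F : ℝ) ^ (m - 1 - i) := by
          rw [← pow_add]; congr 1; omega
        rw [this]; field_simp
      unfold digitAt
      rw [h1, Nat.floor_div_natCast, Nat.floor_natCast]
      have h2 := nn_digit η hη m v ⟨m - 1 - i, by omega⟩
      rw [← hndef] at h2
      simp only at h2
      rw [h2]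
      have h3 : seqRows C m 0 i v = v ⟨m - 1 - i, by omega⟩ := by
        have : seqRows C m 0 i = if h : i < m then LinearMap.proj (⟨m - 1 - i, by omega⟩ : Fin m) else 0 := rfl
        rw [this, dif_pos hi]; rfl
      rw [h3]
      rfl
  · have hz : seqPts x η hη m v j.succ = x n j := rfl
    rw [hz]
    refine ⟨(hxx n j).1, (hxx n j).2.1, fun i hi => ?_⟩
    rw [(hxx n j).2.2 i]
    have h3 : seqRows C m j.succ i v = ∑ l : Fin m, C j i l * v l := by
      have : seqRows C m j.succ i = ∑ l : Fin m, C j i l • LinearMap.proj l := rfl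
      rw [this]
      simp [LinearMap.sum_apply]
    have h4 : ∀ y, seqDigs C η hη ψ l₀ m j.succ i y =
        ψ j i (y + ∑ l ∈ Ico m (m + l₀), C j i l * η l 0) := fun y => rfl
    rw [h3, h4]
    congr 2
    -- the sum
    have hzero : ∀ l, m ≤ l → n / Fintype.card F ^ l % Fintype.card F = 0 := by
      intro l hl
      have : n / Fintype.card F ^ l = 0 := by
        apply Nat.div_eq_of_lt
        exact lt_of_lt_of_le hn (Nat.pow_le_pow_right (by omega) hl)
      rw [this]; simp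
    have hzero' : ∀ l, n + l₀ ≤ l →
        C j i l * η l (n / Fintype.card F ^ l % Fintype.card F) = 0 := by
      intro l hl
      have h5 : n < Fintype.card F ^ l := by
        calc n ≤ l := by omega
          _ < 2 ^ l := Nat.lt_two_pow_self
          _ ≤ Fintype.card F ^ l := Nat.pow_le_pow_left hq l
      rw [Nat.div_eq_of_lt h5, Nat.zero_mod, hη0 l (by omega), mul_zero]
    have e1 : ∑ l ∈ range (n + l₀), C j i l * η l (n / Fintype.card F ^ l % Fintype.card F) =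
        ∑ l ∈ range (n + l₀ + m), C j i l * η l (n / Fintype.card F ^ l % Fintype.card F) := by
      apply Finset.sum_subset (Finset.range_subset_range.mpr (by omega))
      intro l _ hl
      apply hzero'
      rw [mem_range, not_lt] at hl
      exact hl
    have e2 : ∑ l ∈ range (n + l₀ + m), C j i l * η l (n / Fintype.card F ^ l % Fintype.card F) =
        ∑ l ∈ range m, C j i l * η l (n / Fintype.card F ^ l % Fintype.card F) +
        ∑ l ∈ Ico m (n + l₀ + m), C j i l * η l (n / Fintype.card F ^ l % Fintype.card F) := by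
      rw [Finset.sum_range_add_sum_Ico _ (by omega)]
    have e3 : ∑ l ∈ Ico m (n + l₀ + m), C j i l * η l (n / Fintype.card F ^ l % Fintype.card F) =
        ∑ l ∈ Ico m (m + l₀), C j i l * η l 0 := by
      symm
      rw [← Finset.sum_subset (Finset.Ico_subset_Ico_right (show m + l₀ ≤ n + l₀ + m by omega))]
      · refine sum_congr rfl fun l hl => ?_
        rw [hzero l (mem_Ico.mp hl).1]
      · intro l hl hl'
        rw [mem_Ico] at hl hl'
        rw [hzero l hl.1, hη0 l (by omega), mul_zero]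
    have e4 : ∑ l ∈ range m, C j i l * η l (n / Fintype.card F ^ l % Fintype.card F) =
        ∑ l : Fin m, C j i l * v l := by
      rw [← Fin.sum_univ_eq_sum_range
        (fun l => C j i l * η l (n / Fintype.card F ^ l % Fintype.card F)) m]
      refine sum_congr rfl fun l _ => ?_
      rw [hndef, eta_nn η hη m v l]
    rw [e1, e2, e3, e4]

theorem seq_net (hKK : StmKK) (C : Fin (D + 1) → ℕ → ℕ → F) (l₀ : ℕ)
    (η : ℕ → ℕ → F) (ψ : Fin (D + 1) → ℕ → (F ≃ Fin (Fintype.card F)))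
    (x : ℕ → Fin (D + 1) → ℝ) (hx : IsDigitalSeq C l₀ η ψ x) (m t : ℕ)
    (ht : IsTSeq (Fintype.card F) t x) : IsNet t (seqRows C m : Rows F m D) := by
  classical
  have hq : 2 ≤ Fintype.card F := Fintype.one_lt_card
  apply isNet_of_count hKK (seqRows C m) (seqDigs C η hx.1 ψ l₀ m) (seqPts x η hx.1 m)
    (seq_digits C l₀ η ψ x hx m)
  intro k w hk hw
  have hk' : k 0 + ∑ i : Fin (D + 1), k i.succ + t = m := by
    rw [← Fin.sum_univ_succ]; exact hk
  have h1 := ht (w 0) (m - k 0) (fun i => k i.succ) (fun i => w i.succ) (by omega)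
    (fun i => hw i.succ)
  rw [← h1, Nat.card_eq_fintype_card, Fintype.card_subtype]
  apply Finset.card_le_card_of_injOn (fun v => ((nn η hx.1 m v : ℕ)))
  · intro v hv
    rw [Finset.mem_coe, mem_filter] at hv
    have hv2 := hv.2
    rw [Finset.mem_coe, mem_filter, mem_Ico]
    have h0 := hv2 0
    have hz : seqPts x η hx.1 m v 0 = ((nn η hx.1 m v : ℕ) : ℝ) / (Fintype.card F : ℝ) ^ m := rfl
    rw [hz] at h0
    have hpow : (Fintype.card F : ℝ) ^ m = (Fintype.card F : ℝ) ^ k 0 *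
        (Fintype.card F : ℝ) ^ (m - k 0) := by
      rw [← pow_add]; congr 1; omega
    have hp0 : (0 : ℝ) < (Fintype.card F : ℝ) ^ k 0 := by positivity
    have hp1 : (0 : ℝ) < (Fintype.card F : ℝ) ^ (m - k 0) := by positivity
    refine ⟨⟨?_, ?_⟩, fun i => hv2 i.succ⟩
    · have h2 := h0.1
      rw [hpow, div_le_div_iff₀ hp0 (by positivity)] at h2
      have h3 : (w 0 : ℝ) * (Fintype.card F : ℝ) ^ (m - k 0) ≤ (nn η hx.1 m v : ℕ) := by
        have : (w 0 : ℝ) * ((Fintype.card F : ℝ) ^ k 0 * (Fintype.card F : ℝ) ^ (m - k 0)) =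
          ((w 0 : ℝ) * (Fintype.card F : ℝ) ^ (m - k 0)) * (Fintype.card F : ℝ) ^ k 0 := by ring
        rw [this] at h2
        exact le_of_mul_le_mul_right h2 hp0
      exact_mod_cast h3
    · have h2 := h0.2
      rw [hpow, div_lt_div_iff₀ (by positivity) hp0] at h2
      have h3 : ((nn η hx.1 m v : ℕ) : ℝ) < ((w 0 : ℝ) + 1) * (Fintype.card F : ℝ) ^ (m - k 0) := by
        have : ((w 0 : ℝ) + 1) * ((Fintype.card F : ℝ) ^ k 0 * (Fintype.card F : ℝ) ^ (m - k 0)) =
          (((w 0 : ℝ) + 1) * (Fintype.card F : ℝ) ^ (m - k 0)) * (Fintype.card F : ℝ) ^ k 0 := by ring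
        rw [this] at h2
        exact lt_of_mul_lt_mul_right h2 hp0.le
      exact_mod_cast h3
  · intro a _ b _ hab
    exact (nn η hx.1 m).injective (Fin.ext hab)

/-- Counting points of the sequence. -/
theorem seq_bd (hS : StmStar) (C : Fin (D + 1) → ℕ → ℕ → F) (l₀ : ℕ)
    (η : ℕ → ℕ → F) (ψ : Fin (D + 1) → ℕ → (F ≃ Fin (Fintype.card F)))
    (x : ℕ → Fin (D + 1) → ℝ) (hx : IsDigitalSeq C l₀ η ψ x) (m : ℕ) (A : ℝ) (hA : 0 ≤ A)
    (h : ∀ N : ℕ, 1 ≤ N → N ≤ Fintype.card F ^ m →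
      starDisc (fun μ : Fin N => x μ) ≤ ENNReal.ofReal (A / N)) :
    1 / 2 ≤ 2 ^ (D + 1) * A ∧ Bd (seqPts x η hx.1 m : (Fin m → F) → Fin (D + 2) → ℝ)
      (2 ^ (D + 2) * A + 1) := by
  classical
  have hq : 2 ≤ Fintype.card F := Fintype.one_lt_card
  have hq0 : (0 : ℝ) < (Fintype.card F : ℝ) := by positivity
  have hx01 : ∀ n j, 0 ≤ x n j ∧ x n j < 1 := fun n j => ⟨(hx.2.2 n j).1, (hx.2.2 n j).2.1⟩
  -- counting function
  have hf : ∀ Y X : Fin (D + 1) → ℝ, (∀ j, 0 ≤ Y j ∧ Y j ≤ X j ∧ X j ≤ 1) →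
      ∀ N : ℕ, N ≤ Fintype.card F ^ m →
      |(((range N).filter (fun n => ∀ j, Y j ≤ x n j ∧ x n j < X j)).card : ℝ) -
        (N : ℝ) * ∏ j, (X j - Y j)| ≤ 2 ^ (D + 1) * A := by
    intro Y X hYX N hN
    rcases Nat.eq_zero_or_pos N with h0 | h0
    · subst h0
      simp only [range_zero, filter_empty, card_empty, Nat.cast_zero, zero_mul, sub_zero, abs_zero]
      positivity
    · have h1 := hS N (D + 1) (fun μ : Fin N => x μ) h0 (fun μ j => hx01 μ j) A hA
        (h N h0 hN) Y X hYX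
      have h2 : Nat.card {μ : Fin N // ∀ j, Y j ≤ x μ j ∧ x μ j < X j} =
          ((range N).filter (fun n => ∀ j, Y j ≤ x n j ∧ x n j < X j)).card := by
        rw [Nat.card_eq_fintype_card, Fintype.card_subtype]
        refine Finset.card_bij (fun μ _ => (μ : ℕ)) ?_ ?_ ?_
        · intro μ hμ
          rw [mem_filter] at hμ ⊢
          exact ⟨mem_range.mpr μ.2, hμ.2⟩
        · intro a _ b _ hab
          exact Fin.ext hab
        · intro n hn
          rw [mem_filter, mem_range] at hn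
          exact ⟨⟨n, hn.1⟩, by rw [mem_filter]; exact ⟨mem_univ _, hn.2⟩, rfl⟩
      rw [h2] at h1
      exact h1
  constructor
  · have h1 := hf (fun j => x 0 j) (fun j => min 1 (x 0 j + 1 / 2)) (fun j =>
      ⟨(hx01 0 j).1, le_min (hx01 0 j).2.le (by linarith), min_le_left _ _⟩) 1
      (Nat.one_le_pow _ _ (by omega))
    have h2 : ((range 1).filter (fun n => ∀ j, x 0 j ≤ x n j ∧
        x n j < min 1 (x 0 j + 1 / 2))).card = 1 := by
      rw [range_one, filter_singleton, if_pos, card_singleton]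
      intro j
      exact ⟨le_refl _, lt_min (hx01 0 j).2 (by linarith)⟩
    rw [h2] at h1
    have h3 : ∏ j : Fin (D + 1), (min 1 (x 0 j + 1 / 2) - x 0 j) ≤ 1 / 2 := by
      rw [Fin.prod_univ_succ]
      have ha : ∀ j, 0 ≤ min 1 (x 0 j + 1 / 2) - x 0 j := fun j => by
        rw [sub_nonneg]
        exact le_min (hx01 0 j).2.le (by linarith)
      have hb : ∀ j, min 1 (x 0 j + 1 / 2) - x 0 j ≤ 1 / 2 := fun j => by
        have := min_le_right 1 (x 0 j + 1 / 2)
        linarith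
      have hc : ∏ j : Fin D, (min 1 (x 0 j.succ + 1 / 2) - x 0 j.succ) ≤ 1 := by
        apply Finset.prod_le_one (fun j _ => ha _)
        intro j _
        linarith [hb j.succ]
      calc _ ≤ (1 / 2 : ℝ) * 1 := mul_le_mul (hb 0) hc (Finset.prod_nonneg fun j _ => ha _) (by norm_num)
        _ = _ := by norm_num
    have h4 := (abs_le.mp h1).2
    push_cast at h4
    linarith
  · intro Y X hYX
    have hQ : (0 : ℝ) < (Fintype.card F : ℝ) ^ m := by positivity
    set Y' : Fin (D + 1) → ℝ := fun j => Y j.succ with hY'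
    set X' : Fin (D + 1) → ℝ := fun j => X j.succ with hX'
    set a : ℕ := ⌈(Fintype.card F : ℝ) ^ m * Y 0⌉₊ with ha
    set b : ℕ := ⌈(Fintype.card F : ℝ) ^ m * X 0⌉₊ with hb
    have hab : a ≤ b := by
      apply Nat.ceil_le_ceil
      exact mul_le_mul_of_nonneg_left (hYX 0).2.1 hQ.le
    have hbq : b ≤ Fintype.card F ^ m := by
      rw [hb, Nat.ceil_le]
      push_cast
      nlinarith [(hYX 0).2.2]
    have hX0 : 0 ≤ X 0 := le_trans (hYX 0).1 (hYX 0).2.1
    have hcnt : cnt (seqPts x η hx.1 m : (Fin m → F) → Fin (D + 2) → ℝ) Y X +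
        ((range a).filter (fun n => ∀ j, Y' j ≤ x n j ∧ x n j < X' j)).card =
        ((range b).filter (fun n => ∀ j, Y' j ≤ x n j ∧ x n j < X' j)).card := by
      have h1 : cnt (seqPts x η hx.1 m : (Fin m → F) → Fin (D + 2) → ℝ) Y X =
          ((Ico a b).filter (fun n => ∀ j, Y' j ≤ x n j ∧ x n j < X' j)).card := by
        unfold cnt
        have hiff : ∀ v : Fin m → F, (∀ j, Y j ≤ seqPts x η hx.1 m v j ∧
            seqPts x η hx.1 m v j < X j) ↔ (((nn η hx.1 m v : ℕ) ∈ Ico a b) ∧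
            ∀ j, Y' j ≤ x (nn η hx.1 m v) j ∧ x (nn η hx.1 m v) j < X' j) := by
          intro v
          rw [Fin.forall_fin_succ]
          apply and_congr
          · have hz : seqPts x η hx.1 m v 0 =
                ((nn η hx.1 m v : ℕ) : ℝ) / (Fintype.card F : ℝ) ^ m := rfl
            rw [hz, mem_Ico, ha, hb, Nat.ceil_le, Nat.lt_ceil, le_div_iff₀ hQ, div_lt_iff₀ hQ,
              mul_comm (Y 0), mul_comm (X 0)]
          · exact Iff.rfl
        refine Finset.card_bij (fun v _ => ((nn η hx.1 m v : ℕ))) ?_ ?_ ?_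
        · intro v hv
          rw [mem_filter] at hv ⊢
          exact (hiff v).mp hv.2
        · intro v1 _ v2 _ h12
          exact (nn η hx.1 m).injective (Fin.ext h12)
        · intro n hn
          rw [mem_filter] at hn
          have hnq : n < Fintype.card F ^ m := lt_of_lt_of_le (mem_Ico.mp hn.1).2 hbq
          refine ⟨(nn η hx.1 m).symm ⟨n, hnq⟩, ?_, by simp⟩
          rw [mem_filter]
          refine ⟨mem_univ _, (hiff _).mpr ?_⟩
          simpa using hn
      rw [h1, add_comm]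
      have h2 : range b = range a ∪ Ico a b := by
        ext n
        simp only [mem_union, mem_range, mem_Ico]
        omega
      rw [h2, filter_union, card_union_of_disjoint]
      apply Finset.disjoint_filter_filter
      rw [Finset.disjoint_left]
      intro n hn hn'
      rw [mem_range] at hn
      rw [mem_Ico] at hn'
      omega
    have hYX' : ∀ j, 0 ≤ Y' j ∧ Y' j ≤ X' j ∧ X' j ≤ 1 := fun j => hYX j.succ
    have ea := hf Y' X' hYX' a (hab.trans hbq)
    have eb := hf Y' X' hYX' b hbq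
    set W : ℝ := ∏ j, (X' j - Y' j) with hW
    have hW0 : 0 ≤ W := Finset.prod_nonneg fun j _ => by linarith [(hYX' j).2.1]
    have hW1 : W ≤ 1 := Finset.prod_le_one (fun j _ => by linarith [(hYX' j).2.1])
      (fun j _ => by linarith [(hYX' j).2.2, (hYX' j).1])
    have hprod : ∏ j, (X j - Y j) = (X 0 - Y 0) * W := by
      rw [Fin.prod_univ_succ]
    have hcR : (cnt (seqPts x η hx.1 m : (Fin m → F) → Fin (D + 2) → ℝ) Y X : ℝ) =
        ((range b).filter (fun n => ∀ j, Y' j ≤ x n j ∧ x n j < X' j)).card -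
        ((range a).filter (fun n => ∀ j, Y' j ≤ x n j ∧ x n j < X' j)).card := by
      rw [eq_sub_iff_add_eq]
      exact_mod_cast hcnt
    have hca : (a : ℝ) < (Fintype.card F : ℝ) ^ m * Y 0 + 1 :=
      Nat.ceil_lt_add_one (mul_nonneg hQ.le (hYX 0).1)
    have hca' : (Fintype.card F : ℝ) ^ m * Y 0 ≤ a := Nat.le_ceil _
    have hcb : (b : ℝ) < (Fintype.card F : ℝ) ^ m * X 0 + 1 :=
      Nat.ceil_lt_add_one (mul_nonneg hQ.le hX0)
    have hcb' : (Fintype.card F : ℝ) ^ m * X 0 ≤ b := Nat.le_ceil _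
    rw [hcR, hprod]
    rw [abs_le] at ea eb ⊢
    have hp : (2 : ℝ) ^ (D + 2) * A = 2 * (2 ^ (D + 1) * A) := by rw [pow_succ (2 : ℝ) (D + 1)]; ring
    rw [hp]
    set B : ℝ := 2 ^ (D + 1) * A
    have k1 : ((b : ℝ) - a - (Fintype.card F : ℝ) ^ m * (X 0 - Y 0)) * W ≤ 1 := by
      have : (b : ℝ) - a - (Fintype.card F : ℝ) ^ m * (X 0 - Y 0) ≤ 1 := by linarith
      nlinarith
    have k2 : -1 ≤ ((b : ℝ) - a - (Fintype.card F : ℝ) ^ m * (X 0 - Y 0)) * W := by
      have : -1 ≤ (b : ℝ) - a - (Fintype.card F : ℝ) ^ m * (X 0 - Y 0) := by linarith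
      nlinarith
    constructor
    · nlinarith [ea.1, ea.2, eb.1, eb.2]
    · nlinarith [ea.1, ea.2, eb.1, eb.2]

end seq

/-- The part on sequences. -/
theorem seqs (hKK : StmKK) (hS : StmStar) (hM : StmMain) (D : ℕ) (hD : 1 ≤ D) :
    ∃ c : ℝ, 0 < c ∧ ∀ (F : Type) [Field F] [Fintype F] (C : Fin (D + 1) → ℕ → ℕ → F) (l₀ : ℕ)
      (η : ℕ → ℕ → F) (ψ : Fin (D + 1) → ℕ → (F ≃ Fin (Fintype.card F)))
      (x : ℕ → Fin (D + 1) → ℝ), IsDigitalSeq C l₀ η ψ x → ∀ m : ℕ,
      (∀ t : ℕ, IsTSeq (Fintype.card F) t x → ∃ N : ℕ, 1 ≤ N ∧ N ≤ Fintype.card F ^ m ∧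
        ENNReal.ofReal (c * ((m : ℝ) / ((Fintype.card F : ℝ) * ((t : ℝ) + 1) ^ 2)) ^ (D + 1) / N) ≤
          starDisc (fun μ : Fin N => x μ)) ∧
      ∃ N : ℕ, 1 ≤ N ∧ N ≤ Fintype.card F ^ m ∧
        ENNReal.ofReal (c * ((m : ℝ) / ((Fintype.card F : ℝ) * (1 + Real.log m) ^ 2)) ^ (D + 1) / N)
          ≤ starDisc (fun μ : Fin N => x μ) := by
  obtain ⟨c, hc, hmain⟩ := hM D hD
  refine ⟨c / 2 ^ (D + 4), by positivity, ?_⟩
  intro F _ _ C l₀ η ψ x hx m
  have hdig := isDig_of_digits _ _ _ (seq_digits C l₀ η ψ x hx m)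
  have gen : ∀ A : ℝ, (∀ R : ℝ, Bd (seqPts x η hx.1 m : (Fin m → F) → Fin (D + 2) → ℝ) R →
      c * A ≤ R) → 0 ≤ A →
      ∃ N : ℕ, 1 ≤ N ∧ N ≤ Fintype.card F ^ m ∧
        ENNReal.ofReal (c / 2 ^ (D + 4) * A / N) ≤ starDisc (fun μ : Fin N => x μ) := by
    intro A hA hA0
    by_contra hcon
    have h1 : ∀ N : ℕ, 1 ≤ N → N ≤ Fintype.card F ^ m →
        starDisc (fun μ : Fin N => x μ) ≤ ENNReal.ofReal ((c / 2 ^ (D + 4) * A) / N) := by
      intro N h1 h2
      by_contra h3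
      exact hcon ⟨N, h1, h2, (not_le.mp h3).le⟩
    obtain ⟨h2, h3⟩ := seq_bd hS C l₀ η ψ x hx m (c / 2 ^ (D + 4) * A) (by positivity) h1
    have h4 := hA _ h3
    have e1 : (2 : ℝ) ^ (D + 2) * (c / 2 ^ (D + 4) * A) = c * A / 4 := by
      rw [show D + 4 = (D + 2) + 2 from rfl, pow_add (2 : ℝ) (D + 2) 2]
      field_simp
      ring
    have e2 : (2 : ℝ) ^ (D + 1) * (c / 2 ^ (D + 4) * A) = c * A / 8 := by
      rw [show D + 4 = (D + 1) + 3 from rfl, pow_add (2 : ℝ) (D + 1) 3]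
      field_simp
      ring
    rw [e1] at h4
    rw [e2] at h2
    linarith
  constructor
  · intro t ht
    exact gen _ (fun R hR => (hmain F m _ _ _ hdig R hR).1 t
      (seq_net hKK C l₀ η ψ x hx m t ht)) (by positivity)
  · exact gen _ (fun R hR => (hmain F m _ _ _ hdig R hR).2.1) (by
      have : (0 : ℝ) ≤ (1 + Real.log m) ^ 2 := sq_nonneg _
      positivity)

end Pool.Agent.Q71.DN
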