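import Pool.Agent.Q71.DN.Fin3

set_option autoImplicit false

namespace Pool.Agent.Q71.DN

open Finset MeasureTheory Filter

theorem starDisc_le_one {N d : ℕ} (ξ : Fin N → Fin d → ℝ) : starDisc ξ ≤ 1 := by
  unfold starDisc
  rw [eLpNorm_exponent_top]
  have h : ∀ᵐ x ∂(volume.restrict (Set.Icc (0 : Fin d → ℝ) 1)), ‖localDisc ξ x‖ ≤ 1 := by
    rw [ae_restrict_iff' measurableSet_Icc]
    refine Eventually.of_forall fun x hx => ?_
    have h0 : 0 ≤ ∏ j, x j := Finset.prod_nonneg fun j _ => hx.1 j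
    have h1 : ∏ j, x j ≤ 1 := Finset.prod_le_one (fun j _ => hx.1 j) fun j _ => hx.2 j
    have h2 : 0 ≤ (1 / (N : ℝ)) * ∑ μ : Fin N,
        (Set.Icc (0 : Fin d → ℝ) x).indicator (fun _ => (1 : ℝ)) (ξ μ) := by
      apply mul_nonneg (by positivity)
      exact Finset.sum_nonneg fun μ _ => Set.indicator_nonneg (fun _ _ => zero_le_one) _
    have h3 : (1 / (N : ℝ)) * ∑ μ : Fin N,
        (Set.Icc (0 : Fin d → ℝ) x).indicator (fun _ => (1 : ℝ)) (ξ μ) ≤ 1 := by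
      have h4 : ∑ μ : Fin N, (Set.Icc (0 : Fin d → ℝ) x).indicator (fun _ => (1 : ℝ)) (ξ μ) ≤ N := by
        calc _ ≤ ∑ _μ : Fin N, (1 : ℝ) := Finset.sum_le_sum fun μ _ =>
              Set.indicator_le_self' (fun _ _ => zero_le_one) _
          _ = N := by simp
      rcases Nat.eq_zero_or_pos N with hN | hN
      · subst hN; simp
      · have hN' : (0 : ℝ) < N := by exact_mod_cast hN
        rw [one_div, inv_mul_le_iff₀ hN', mul_one]
        exact h4
    rw [Real.norm_eq_abs, abs_le]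
    unfold localDisc
    constructor <;> linarith
  have h5 := eLpNormEssSup_le_of_ae_bound (C := 1) h
  simpa using h5

theorem freq (q : ℕ) (hq : 2 ≤ q) (s : ℕ) (hs : 1 ≤ s) (c A : ℝ) (hc : 0 < c) (hA : 0 < A)
    (D : ℕ → ENNReal) (hD : ∀ N, D N ≤ 1)
    (h : ∀ m : ℕ, ∃ N : ℕ, 1 ≤ N ∧ N ≤ q ^ m ∧ ENNReal.ofReal (c * ((m : ℝ) / A) ^ s / N) ≤ D N) :
    ∃ᶠ N : ℕ in atTop, ENNReal.ofReal (c * (Real.log N / (A * Real.log q)) ^ s / N) ≤ D N := by
  rw [frequently_atTop]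
  intro N₀
  obtain ⟨m, hm⟩ : ∃ m : ℕ, (N₀ : ℝ) < c * ((m : ℝ) / A) ^ s := by
    obtain ⟨m, hm⟩ := exists_nat_gt (A * (1 + (N₀ : ℝ) / c))
    refine ⟨m, ?_⟩
    have h1 : 1 + (N₀ : ℝ) / c < (m : ℝ) / A := by
      rw [lt_div_iff₀ hA]; linarith
    have h2 : (1 : ℝ) ≤ (m : ℝ) / A := by
      have : 0 ≤ (N₀ : ℝ) / c := by positivity
      linarith
    have h3 : (m : ℝ) / A ≤ ((m : ℝ) / A) ^ s := le_self_pow₀ h2 (by omega)
    have h4 : (N₀ : ℝ) / c < ((m : ℝ) / A) ^ s := by linarith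
    rw [div_lt_iff₀ hc] at h4
    linarith
  obtain ⟨N, hN1, hNq, hN⟩ := h m
  have hNR : (0 : ℝ) < N := by exact_mod_cast hN1
  have hbig : (N₀ : ℝ) < N := by
    have h1 := hN.trans (hD N)
    rw [ENNReal.ofReal_le_one, div_le_one hNR] at h1
    linarith
  refine ⟨N, by exact_mod_cast hbig.le, le_trans ?_ hN⟩
  apply ENNReal.ofReal_le_ofReal
  have hlogq : 0 < Real.log q := Real.log_pos (by exact_mod_cast (by omega : 1 < q))
  have hlogN : Real.log N ≤ m * Real.log q := by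
    rw [← Real.log_pow]
    apply Real.log_le_log hNR
    exact_mod_cast hNq
  have hlogN0 : 0 ≤ Real.log N := Real.log_nonneg (by exact_mod_cast hN1)
  have h5 : Real.log N / (A * Real.log q) ≤ (m : ℝ) / A := by
    rw [div_le_div_iff₀ (by positivity) hA]
    nlinarith
  gcongr

end Pool.Agent.Q71.DN
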