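import Pool.Agent.Q71.DN.Fin4

set_option autoImplicit false

namespace Pool.Agent.Q71.DN

open Finset MeasureTheory Filter

/-- all parts, for sequences with the limsup form -/
theorem allNets (hKK : StmKK) (hS : StmStar) (hM : StmMain) (d : ℕ) (hd : 3 ≤ d) :
    ∃ c : ℝ, 0 < c ∧ ∀ (F : Type) [Field F] [Fintype F] (m : ℕ)
      (C : Fin d → Matrix (Fin m) (Fin m) F) (ψ : Fin d → Fin m → (F ≃ Fin (Fintype.card F)))
      (ξ : Fin (Fintype.card F ^ m) → Fin d → ℝ), IsDigital C ψ ξ →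
      (∀ t : ℕ, IsPNet (Fintype.card F) t m ξ →
        ENNReal.ofReal (c * ((m : ℝ) / ((Fintype.card F : ℝ) * ((t : ℝ) + 1) ^ 2)) ^ (d - 1) /
          ((Fintype.card F : ℝ) ^ m)) ≤ starDisc ξ) ∧
      ENNReal.ofReal (c * ((m : ℝ) / ((Fintype.card F : ℝ) * (1 + Real.log m) ^ 2)) ^ (d - 1) /
          ((Fintype.card F : ℝ) ^ m)) ≤ starDisc ξ := by
  obtain ⟨D, rfl⟩ := Nat.exists_eq_add_of_le' hd
  exact nets hKK hS hM (D + 1) (by omega)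

theorem allSeqs (hKK : StmKK) (hS : StmStar) (hM : StmMain) (s : ℕ) (hs : 2 ≤ s) :
    ∃ c : ℝ, 0 < c ∧ ∀ (F : Type) [Field F] [Fintype F] (C : Fin s → ℕ → ℕ → F) (l₀ : ℕ)
      (η : ℕ → ℕ → F) (ψ : Fin s → ℕ → (F ≃ Fin (Fintype.card F)))
      (x : ℕ → Fin s → ℝ), IsDigitalSeq C l₀ η ψ x →
      (∀ t : ℕ, IsTSeq (Fintype.card F) t x →
        (∀ m : ℕ, ∃ N : ℕ, 1 ≤ N ∧ N ≤ Fintype.card F ^ m ∧
          ENNReal.ofReal (c * ((m : ℝ) / ((Fintype.card F : ℝ) * ((t : ℝ) + 1) ^ 2)) ^ s / N) ≤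
            starDisc (fun μ : Fin N => x μ)) ∧
        ∃ᶠ N : ℕ in atTop,
          ENNReal.ofReal (c * (Real.log N / ((Fintype.card F : ℝ) * ((t : ℝ) + 1) ^ 2 *
            Real.log (Fintype.card F))) ^ s / N) ≤ starDisc (fun μ : Fin N => x μ)) ∧
      ∀ m : ℕ, ∃ N : ℕ, 1 ≤ N ∧ N ≤ Fintype.card F ^ m ∧
        ENNReal.ofReal (c * ((m : ℝ) / ((Fintype.card F : ℝ) * (1 + Real.log m) ^ 2)) ^ s / N)
          ≤ starDisc (fun μ : Fin N => x μ) := by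
  obtain ⟨D, rfl⟩ := Nat.exists_eq_add_of_le' hs
  obtain ⟨c, hc, h⟩ := seqs hKK hS hM (D + 1) (by omega)
  refine ⟨c, hc, ?_⟩
  intro F _ _ C l₀ η ψ x hx
  refine ⟨fun t ht => ?_, fun m => (h F C l₀ η ψ x hx m).2⟩
  have h1 : ∀ m : ℕ, ∃ N : ℕ, 1 ≤ N ∧ N ≤ Fintype.card F ^ m ∧
      ENNReal.ofReal (c * ((m : ℝ) / ((Fintype.card F : ℝ) * ((t : ℝ) + 1) ^ 2)) ^ (D + 2) / N) ≤
        starDisc (fun μ : Fin N => x μ) := fun m => (h F C l₀ η ψ x hx m).1 t ht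
  refine ⟨h1, ?_⟩
  have hq : 2 ≤ Fintype.card F := Fintype.one_lt_card
  exact freq (Fintype.card F) hq (D + 2) (by omega) c _ hc (by positivity)
    (fun N => starDisc (fun μ : Fin N => x μ)) (fun N => starDisc_le_one _) h1

end Pool.Agent.Q71.DN
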