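import Pool.Agent.Q71.DN.Defs

set_option autoImplicit false

namespace Pool.Agent.Q71.DN

open Finset

/-- The main estimate in terms of a bound for all half open boxes. -/
def StmMain : Prop :=
  ∀ D : ℕ, 1 ≤ D → ∃ c : ℝ, 0 < c ∧
    ∀ (F : Type) [Field F] [Fintype F] (m : ℕ) (φ : Rows F m D) (ψ : Digs F D)
      (x : (Fin m → F) → Fin (D + 2) → ℝ), IsDig φ ψ x → ∀ R : ℝ, Bd x R →
      (∀ t : ℕ, IsNet t φ →
        c * ((m : ℝ) / ((Fintype.card F : ℝ) * ((t : ℝ) + 1) ^ 2)) ^ (D + 1) ≤ R) ∧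
      c * ((m : ℝ) / ((Fintype.card F : ℝ) * (1 + Real.log m) ^ 2)) ^ (D + 1) ≤ R ∧
      1 / 2 ≤ R

/-- the constant -/
noncomputable def cc (D : ℕ) : ℝ := 1 / ((16 * (2 * D + 9)) ^ (D + 1) * (8 * (4 * D) ^ D))

theorem cc_pos (D : ℕ) (hD : 1 ≤ D) : 0 < cc D := by
  have hD' : (1 : ℝ) ≤ D := by exact_mod_cast hD
  unfold cc; positivity

theorem part1 (hT : StmT) (hC : StmCore) (D : ℕ) (hD : 1 ≤ D) (F : Type) [Field F] [Fintype F]
    (m : ℕ) (φ : Rows F m D) (ψ : Digs F D) (x : (Fin m → F) → Fin (D + 2) → ℝ)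
    (hx : IsDig φ ψ x) (R : ℝ) (hR : Bd x R) (t : ℕ) (ht : IsNet t φ) :
    cc D * ((m : ℝ) / ((Fintype.card F : ℝ) * ((t : ℝ) + 1) ^ 2)) ^ (D + 1) ≤ R := by
  have hD' : (1 : ℝ) ≤ D := by exact_mod_cast hD
  have hR2 : 1 / 2 ≤ R := (hT F m D φ ψ x hx R hR).1
  set q := Fintype.card F with hq
  have hq2 : 2 ≤ q := Fintype.one_lt_card
  have hqR : (2 : ℝ) ≤ q := by exact_mod_cast hq2
  set M : ℕ := (8 * ((t + 2) * q) + 2 * D + 1) * (2 * (t + 2)) with hM
  have hMpos : 0 < M := by positivity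
  -- M ≤ 8 (2D+9) q (t+1)^2
  have hMle : (M : ℝ) ≤ 8 * (2 * D + 9) * (q * ((t : ℝ) + 1) ^ 2) := by
    have h1 : M ≤ ((t + 2) * q * (2 * D + 9)) * (2 * (t + 2)) := by
      apply Nat.mul_le_mul_right
      have : 1 ≤ (t + 2) * q := Nat.mul_pos (by omega) (by omega)
      nlinarith
    have h2 : (M : ℝ) ≤ (((t : ℝ) + 2) * q * (2 * D + 9)) * (2 * ((t : ℝ) + 2)) := by
      exact_mod_cast h1
    have h3 : ((t : ℝ) + 2) ≤ 2 * ((t : ℝ) + 1) := by
      have : (0 : ℝ) ≤ t := Nat.cast_nonneg t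
      linarith
    have h4 : (((t : ℝ) + 2) * q * (2 * D + 9)) * (2 * ((t : ℝ) + 2)) =
        2 * (2 * D + 9) * q * ((t : ℝ) + 2) ^ 2 := by ring
    have h5 : ((t : ℝ) + 2) ^ 2 ≤ (2 * ((t : ℝ) + 1)) ^ 2 := by
      apply pow_le_pow_left₀ (by positivity) h3
    calc (M : ℝ) ≤ 2 * (2 * D + 9) * q * ((t : ℝ) + 2) ^ 2 := by rw [← h4]; exact h2
      _ ≤ 2 * (2 * D + 9) * q * (2 * ((t : ℝ) + 1)) ^ 2 := by gcongr
      _ = _ := by ring
  have hA : (0 : ℝ) < q * ((t : ℝ) + 1) ^ 2 := by positivity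
  set y : ℝ := (m : ℝ) / (q * ((t : ℝ) + 1) ^ 2) with hy
  have hy0 : 0 ≤ y := by positivity
  have hMR : (0 : ℝ) < M := by exact_mod_cast hMpos
  -- y ≤ 8(2D+9) m / M
  have hyM : y ≤ 8 * (2 * D + 9) * ((m : ℝ) / M) := by
    rw [hy, div_le_iff₀ hA]
    have : (8 * (2 * (D : ℝ) + 9) * ((m : ℝ) / M)) * (q * ((t : ℝ) + 1) ^ 2) =
        (m : ℝ) / M * (8 * (2 * D + 9) * (q * ((t : ℝ) + 1) ^ 2)) := by ring
    rw [this]
    calc (m : ℝ) = (m : ℝ) / M * M := by field_simp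
      _ ≤ _ := by gcongr
  have key : y ^ (D + 1) ≤ (16 * (2 * D + 9)) ^ (D + 1) * (8 * (4 * D) ^ D) * R := by
    by_cases hL : M ≤ m
    · set L := m / M with hLdef
      have hL1 : 1 ≤ L := Nat.div_pos hL hMpos
      have hcore := hC F m D t φ ψ x hD ht hx R hR L hL1 (by
        have : (8 * ((t + 2) * q) + 2 * D + 1) * (2 * ((t + 2) * L)) = L * M := by
          rw [hM]; ring
        rw [this]
        exact Nat.div_mul_le_self m M)
      have hLM : (m : ℝ) / M ≤ 2 * L := by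
        rw [div_le_iff₀ hMR]
        have h1 : m < (L + 1) * M := by
          have h2 := Nat.div_add_mod m M
          have h3 := Nat.mod_lt m hMpos
          rw [hLdef]
          calc m = M * (m / M) + m % M := h2.symm
            _ < M * (m / M) + M := by omega
            _ = _ := by ring
        have h2 : (m : ℝ) < ((L : ℝ) + 1) * M := by exact_mod_cast h1
        have h3 : (1 : ℝ) ≤ L := by exact_mod_cast hL1
        nlinarith
      have hyL : y ≤ (16 * (2 * D + 9)) * L := by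
        calc y ≤ 8 * (2 * D + 9) * ((m : ℝ) / M) := hyM
          _ ≤ 8 * (2 * D + 9) * (2 * L) := by gcongr
          _ = _ := by ring
      calc y ^ (D + 1) ≤ ((16 * (2 * D + 9)) * (L : ℝ)) ^ (D + 1) :=
            pow_le_pow_left₀ hy0 hyL _
        _ = (16 * (2 * D + 9)) ^ (D + 1) * (L : ℝ) ^ (D + 1) := by rw [mul_pow]
        _ ≤ (16 * (2 * D + 9)) ^ (D + 1) * (8 * (4 * D) ^ D * R) := by gcongr
        _ = _ := by ring
    · have h1 : (m : ℝ) / M ≤ 1 := by
        rw [div_le_one hMR]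
        exact_mod_cast (not_le.mp hL).le
      have hyL : y ≤ 8 * (2 * D + 9) := by
        calc y ≤ 8 * (2 * D + 9) * ((m : ℝ) / M) := hyM
          _ ≤ 8 * (2 * D + 9) * 1 := by gcongr
          _ = _ := by ring
      have hb : (1 : ℝ) ≤ (4 * D) ^ D := one_le_pow₀ (by linarith)
      calc y ^ (D + 1) ≤ (8 * (2 * D + 9)) ^ (D + 1) := pow_le_pow_left₀ hy0 hyL _
        _ ≤ (16 * (2 * D + 9)) ^ (D + 1) := by gcongr; norm_num
        _ = (16 * (2 * D + 9)) ^ (D + 1) * 1 := by ring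
        _ ≤ (16 * (2 * D + 9)) ^ (D + 1) * (8 * (4 * D) ^ D * R) := by
            gcongr
            nlinarith
        _ = _ := by ring
  unfold cc
  rw [div_mul_eq_mul_div, div_le_iff₀ (by positivity)]
  calc 1 * y ^ (D + 1) ≤ (16 * (2 * D + 9)) ^ (D + 1) * (8 * (4 * D) ^ D) * R := by
        rw [one_mul]; exact key
    _ = _ := by ring

theorem main (hT : StmT) (hC : StmCore) : StmMain := by
  intro D hD
  have hc := cc_pos D hD
  have hD' : (1 : ℝ) ≤ D := by exact_mod_cast hD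
  set e : ℝ := 1 / (4 * ((D : ℝ) + 1) ^ 2) ^ (D + 1) with he
  have hepos : 0 < e := by positivity
  have he1 : e ≤ 1 := by
    rw [he, div_le_one (by positivity)]
    apply one_le_pow₀
    nlinarith
  have hcc1 : cc D ≤ 1 := by
    unfold cc
    rw [div_le_one (by positivity)]
    have h1 : (1 : ℝ) ≤ (16 * (2 * D + 9)) ^ (D + 1) := one_le_pow₀ (by nlinarith)
    have h2 : (1 : ℝ) ≤ (4 * D) ^ D := one_le_pow₀ (by nlinarith)
    nlinarith
  refine ⟨cc D * e, by positivity, ?_⟩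
  intro F _ _ m φ ψ x hx R hR
  have hR2 : 1 / 2 ≤ R := (hT F m D φ ψ x hx R hR).1
  have hnet := (hT F m D φ ψ x hx R hR).2
  have hq2 : 2 ≤ Fintype.card F := Fintype.one_lt_card
  have hqR : (2 : ℝ) ≤ (Fintype.card F : ℝ) := by exact_mod_cast hq2
  refine ⟨?_, ?_, hR2⟩
  · intro t ht
    have h1 := part1 hT hC D hD F m φ ψ x hx R hR t ht
    refine le_trans ?_ h1
    have : (0 : ℝ) ≤ ((m : ℝ) / ((Fintype.card F : ℝ) * ((t : ℝ) + 1) ^ 2)) ^ (D + 1) := by
      positivity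
    calc cc D * e * ((m : ℝ) / ((Fintype.card F : ℝ) * ((t : ℝ) + 1) ^ 2)) ^ (D + 1)
        ≤ cc D * 1 * ((m : ℝ) / ((Fintype.card F : ℝ) * ((t : ℝ) + 1) ^ 2)) ^ (D + 1) := by
          gcongr
      _ = _ := by ring
  · rcases Nat.eq_zero_or_pos m with hm | hm
    · subst hm
      simp only [Nat.cast_zero, zero_div]
      rw [zero_pow (by omega), mul_zero]
      linarith
    have hm1 : (1 : ℝ) ≤ m := by exact_mod_cast hm
    have hlog : 0 ≤ Real.log m := Real.log_nonneg hm1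
    by_cases hbig : (m : ℝ) ^ (D + 1) ≤ R
    · refine le_trans ?_ hbig
      have h1 : (m : ℝ) / ((Fintype.card F : ℝ) * (1 + Real.log m) ^ 2) ≤ m := by
        apply div_le_self (by linarith)
        have : (1 : ℝ) ≤ (1 + Real.log m) ^ 2 := one_le_pow₀ (by linarith)
        nlinarith
      calc cc D * e * ((m : ℝ) / ((Fintype.card F : ℝ) * (1 + Real.log m) ^ 2)) ^ (D + 1)
          ≤ 1 * 1 * (m : ℝ) ^ (D + 1) := by gcongr
        _ = _ := by ring
    · rw [not_le] at hbig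
      set t : ℕ := ⌊((D : ℝ) + 1) * (2 * Real.log m)⌋₊ + 1 with htdef
      have ht1 : ((D : ℝ) + 1) * (2 * Real.log m) < t := by
        rw [htdef]; push_cast; exact Nat.lt_floor_add_one _
      have ht2 : (t : ℝ) ≤ ((D : ℝ) + 1) * (2 * Real.log m) + 1 := by
        rw [htdef]; push_cast
        have := Nat.floor_le (show 0 ≤ ((D : ℝ) + 1) * (2 * Real.log m) by positivity)
        linarith
      have hRt : R < (Fintype.card F : ℝ) ^ t := by
        refine lt_of_lt_of_le hbig ?_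
        have h2t : (m : ℝ) ^ (D + 1) ≤ (2 : ℝ) ^ t := by
          rw [← Real.log_le_log_iff (by positivity) (by positivity), Real.log_pow, Real.log_pow]
          push_cast
          have hl2 : (1 : ℝ) / 2 ≤ Real.log 2 := by
            have := Real.log_two_gt_d9; linarith
          have : ((D : ℝ) + 1) * Real.log m = ((D : ℝ) + 1) * (2 * Real.log m) * (1 / 2) := by ring
          rw [this]
          have ht0 : (0 : ℝ) ≤ t := Nat.cast_nonneg t
          have h0 : 0 ≤ ((D : ℝ) + 1) * (2 * Real.log m) := by positivity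
          nlinarith
        refine le_trans h2t ?_
        exact pow_le_pow_left₀ (by norm_num) hqR t
      have h1 := part1 hT hC D hD F m φ ψ x hx R hR t (hnet t hRt)
      refine le_trans ?_ h1
      have ht3 : (t : ℝ) + 1 ≤ 2 * ((D : ℝ) + 1) * (1 + Real.log m) := by nlinarith
      have ht0 : (0 : ℝ) ≤ t := Nat.cast_nonneg t
      have h4 : ((Fintype.card F : ℝ) * ((t : ℝ) + 1) ^ 2) ≤
          (4 * ((D : ℝ) + 1) ^ 2) * ((Fintype.card F : ℝ) * (1 + Real.log m) ^ 2) := by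
        calc ((Fintype.card F : ℝ) * ((t : ℝ) + 1) ^ 2)
            ≤ ((Fintype.card F : ℝ) * (2 * ((D : ℝ) + 1) * (1 + Real.log m)) ^ 2) := by gcongr
          _ = _ := by ring
      have h5 : (m : ℝ) / ((Fintype.card F : ℝ) * (1 + Real.log m) ^ 2) ≤
          (4 * ((D : ℝ) + 1) ^ 2) * ((m : ℝ) / ((Fintype.card F : ℝ) * ((t : ℝ) + 1) ^ 2)) := by
        rw [← mul_div_assoc, div_le_div_iff₀ (by positivity) (by positivity)]
        calc (m : ℝ) * ((Fintype.card F : ℝ) * ((t : ℝ) + 1) ^ 2)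
            ≤ m * ((4 * ((D : ℝ) + 1) ^ 2) * ((Fintype.card F : ℝ) * (1 + Real.log m) ^ 2)) := by
              gcongr
          _ = _ := by ring
      calc cc D * e * ((m : ℝ) / ((Fintype.card F : ℝ) * (1 + Real.log m) ^ 2)) ^ (D + 1)
          ≤ cc D * e * ((4 * ((D : ℝ) + 1) ^ 2) *
            ((m : ℝ) / ((Fintype.card F : ℝ) * ((t : ℝ) + 1) ^ 2))) ^ (D + 1) := by gcongr
        _ = cc D * ((m : ℝ) / ((Fintype.card F : ℝ) * ((t : ℝ) + 1) ^ 2)) ^ (D + 1) := by
            rw [mul_pow, he]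
            field_simp

end Pool.Agent.Q71.DN
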