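import Pool.Agent.Q71.DN.All

set_option autoImplicit false

namespace Pool.Agent.Q71.DN

open Finset MeasureTheory Filter

open Classical in
/-- `A_N(B)`: the number of indices `0 ≤ n < N` with `z_n ∈ B`. -/
noncomputable def countIn {d : ℕ} (z : ℕ → Fin d → ℝ) (N : ℕ) (B : Set (Fin d → ℝ)) : ℕ :=
  ((Finset.range N).filter (fun n => z n ∈ B)).card

/-- `B = ∏ [0, x_i)` with `x ∈ [0,1]^d`. -/
def IsAnchoredBox {d : ℕ} (B : Set (Fin d → ℝ)) : Prop :=
  ∃ x : Fin d → ℝ, (∀ i, 0 ≤ x i ∧ x i ≤ 1) ∧ B = Set.univ.pi fun i => Set.Ico 0 (x i)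

/-- `D*_N` -/
noncomputable def starD {d : ℕ} (z : ℕ → Fin d → ℝ) (N : ℕ) : ENNReal :=
  ⨆ (B : Set (Fin d → ℝ)) (_ : IsAnchoredBox B),
    ENNReal.ofReal |(countIn z N B : ℝ) / N - (volume B).toReal|

theorem starDisc_le_starD {d : ℕ} (z : ℕ → Fin d → ℝ) (N : ℕ)
    (hz : ∀ n < N, ∀ j, 0 ≤ z n j) :
    starDisc (fun μ : Fin N => z μ) ≤ starD z N := by
  classical
  unfold starDisc
  rw [eLpNorm_exponent_top]
  unfold eLpNormEssSup
  refine essSup_le_of_ae_le _ ?_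
  have hnull : ∀ᵐ x ∂(volume : Measure (Fin d → ℝ)), ∀ (n : Fin N) (j : Fin d), x j ≠ z n j := by
    rw [ae_all_iff]
    intro n
    rw [ae_all_iff]
    intro j
    have := Measure.pi_hyperplane (fun _ : Fin d => (volume : Measure ℝ)) j (z n j)
    rw [← volume_pi] at this
    rw [ae_iff]
    simpa using this
  have h2 := ae_restrict_of_ae (s := Set.Icc (0 : Fin d → ℝ) 1) hnull
  filter_upwards [h2, ae_restrict_mem measurableSet_Icc] with x hx hmem
  have hbox : IsAnchoredBox (Set.univ.pi fun i => Set.Ico 0 (x i)) :=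
    ⟨x, fun i => ⟨hmem.1 i, hmem.2 i⟩, rfl⟩
  refine le_trans (le_of_eq ?_) (le_iSup₂ (f := fun (B : Set (Fin d → ℝ)) (_ : IsAnchoredBox B) =>
    ENNReal.ofReal |(countIn z N B : ℝ) / N - (volume B).toReal|) _ hbox)
  rw [Real.enorm_eq_ofReal_abs]
  congr 1
  have hvol : (volume (Set.univ.pi fun i => Set.Ico 0 (x i))).toReal = ∏ j, x j := by
    rw [volume_pi_pi, ENNReal.toReal_prod]
    refine Finset.prod_congr rfl fun j _ => ?_
    rw [Real.volume_Ico, sub_zero, ENNReal.toReal_ofReal (hmem.1 j)]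
  have hcnt : ∑ μ : Fin N, (Set.Icc (0 : Fin d → ℝ) x).indicator (fun _ => (1 : ℝ)) (z μ) =
      (countIn z N (Set.univ.pi fun i => Set.Ico 0 (x i)) : ℝ) := by
    unfold countIn
    rw [Finset.card_filter, ← Fin.sum_univ_eq_sum_range
      (fun n => if z n ∈ (Set.univ.pi fun i => Set.Ico 0 (x i)) then 1 else 0) N]
    push_cast
    refine Finset.sum_congr rfl fun μ _ => ?_
    rw [Set.indicator_apply]
    have hiff : z μ ∈ Set.Icc (0 : Fin d → ℝ) x ↔ z μ ∈ (Set.univ.pi fun i => Set.Ico 0 (x i)) := by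
      constructor
      · intro h j _
        exact ⟨h.1 j, lt_of_le_of_ne (h.2 j) (fun e => hx μ j e.symm)⟩
      · intro h
        exact ⟨fun j => (h j trivial).1, fun j => (h j trivial).2.le⟩
    simp only [hiff]
  unfold localDisc
  rw [hvol, hcnt, abs_sub_comm]
  congr 1
  ring

theorem seqs_starD (s : ℕ) (hs : 2 ≤ s) :
    ∃ c : ℝ, 0 < c ∧ ∀ (F : Type) [Field F] [Fintype F] (C : Fin s → ℕ → ℕ → F) (l₀ : ℕ)
      (η : ℕ → ℕ → F) (ψ : Fin s → ℕ → (F ≃ Fin (Fintype.card F)))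
      (z : ℕ → Fin s → ℝ), IsDigitalSeq C l₀ η ψ z →
      (∀ t : ℕ, IsTSeq (Fintype.card F) t z →
        ∃ᶠ N : ℕ in atTop,
          ENNReal.ofReal (c * (Real.log N / ((Fintype.card F : ℝ) * ((t : ℝ) + 1) ^ 2 *
            Real.log (Fintype.card F))) ^ s / N) ≤ starD z N) ∧
      ∀ m : ℕ, ∃ N : ℕ, 1 ≤ N ∧ N ≤ Fintype.card F ^ m ∧
        ENNReal.ofReal (c * ((m : ℝ) / ((Fintype.card F : ℝ) * (1 + Real.log m) ^ 2)) ^ s / N)
          ≤ starD z N := by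
  obtain ⟨c, hc, h⟩ := allSeqs kk_thm star_thm main_thm s hs
  refine ⟨c, hc, ?_⟩
  intro F _ _ C l₀ η ψ z hz
  have h0 : ∀ N, ∀ n < N, ∀ j, 0 ≤ z n j := fun N n _ j => (hz.2.2 n j).1
  refine ⟨fun t ht => ?_, fun m => ?_⟩
  · exact ((h F C l₀ η ψ z hz).1 t ht).2.mono fun N hN =>
      hN.trans (starDisc_le_starD z N (h0 N))
  · obtain ⟨N, h1, h2, h3⟩ := (h F C l₀ η ψ z hz).2 m
    exact ⟨N, h1, h2, h3.trans (starDisc_le_starD z N (h0 N))⟩

end Pool.Agent.Q71.DN
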